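import Pool.Agent.Run7.h764.BLA.Clq2

/-!
Averages over the pairs of triangulated polygons.
-/

set_option autoImplicit false
set_option linter.unusedSectionVars false

namespace Pool.Agent.Run7.h764.BLA

open Polynomial Pool.Agent.H207R2.BL

theorem avg_all (q : ℝ) (hq : 4 ≤ q) (n : ℕ) (F : Finset (SimpleGraph (Fin (n + 2))))
    (hF : ∀ T ∈ F, TP T) :
    (F.card : ℝ) ^ 2 * (q * (q - 1) * ((q - 2) ^ 2 / (q - 1)) ^ n) ≤
      ∑ S ∈ F, ∑ T ∈ F, Pv q (S ⊔ T) ∧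
    (F.card : ℝ) ^ 2 * ((q - 2) / (q - 1)) ^ n ≤
      Nat.card {x : SimpleGraph (Fin (n + 2)) × SimpleGraph (Fin (n + 2)) //
        x.1 ∈ F ∧ x.2 ∈ F ∧ 0 < Pv q (x.1 ⊔ x.2)} ∧
    ((∀ S ∈ F, ∀ T ∈ F, S ≠ T → Pv q (S ⊔ T) ≤ 0) →
      (F.card : ℝ) ≤ ((q - 1) / (q - 2)) ^ n) := by
  have hq0 : 0 < q := by linarith
  have hq1 : 0 < q - 1 := by linarith
  have hq2 : 0 < q - 2 := by linarith
  have hpath : ∀ T ∈ F, SimpleGraph.pathGraph (n + 2) ≤ T := fun T hT =>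
    path_le T (hF T hT).path
  have h1 := avg F (fun T hT => (hF T hT).1) _ (path_nc n) hpath q hq
  have h2 := many F (fun T hT => (hF T hT).1) _ (path_nc n) hpath q hq _ rfl
  rw [path_val] at h1 h2
  have h3 : (F.card : ℝ) ^ 2 * (q * (q - 1) * ((q - 2) ^ 2 / (q - 1)) ^ n) ≤
      ∑ S ∈ F, ∑ T ∈ F, Pv q (S ⊔ T) := by
    have hpos : 0 < q * (q - 1) ^ (n + 1) := by positivity
    refine le_of_mul_le_mul_left ?_ hpos
    refine le_trans (le_of_eq ?_) h1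
    have h8 : ((q - 2) ^ 2) ^ n = ((q - 2) ^ n) ^ 2 := by
      rw [← pow_mul, ← pow_mul, mul_comm]
    have h9 : (q - 1) ^ (n + 1) = (q - 1) ^ n * (q - 1) := pow_succ _ _
    have h10 : (q - 1) ^ n ≠ 0 := by positivity
    rw [div_pow, h8, h9]
    field_simp
  have h4 : (F.card : ℝ) ^ 2 * ((q - 2) / (q - 1)) ^ n ≤
      Nat.card {x : SimpleGraph (Fin (n + 2)) × SimpleGraph (Fin (n + 2)) //
        x.1 ∈ F ∧ x.2 ∈ F ∧ 0 < Pv q (x.1 ⊔ x.2)} := by
    have hpos : 0 < q * (q - 1) ^ (n + 1) := by positivity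
    refine le_of_mul_le_mul_left ?_ hpos
    refine le_trans (le_of_eq ?_) h2
    rw [div_pow]
    field_simp
    ring
  refine ⟨h3, h4, ?_⟩
  intro hF0
  rcases Nat.eq_zero_or_pos F.card with h0 | h0
  · rw [h0, Nat.cast_zero]
    positivity
  · have h5 : Nat.card {x : SimpleGraph (Fin (n + 2)) × SimpleGraph (Fin (n + 2)) //
        x.1 ∈ F ∧ x.2 ∈ F ∧ 0 < Pv q (x.1 ⊔ x.2)} ≤ F.card := by
      have e1 : F.card = Nat.card F := by simp
      rw [e1]
      refine Nat.card_le_card_of_injective (fun x => (⟨x.1.1, x.2.1⟩ : F)) ?_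
      have hd : ∀ x : {x : SimpleGraph (Fin (n + 2)) × SimpleGraph (Fin (n + 2)) //
          x.1 ∈ F ∧ x.2 ∈ F ∧ 0 < Pv q (x.1 ⊔ x.2)}, x.1.1 = x.1.2 := by
        intro x
        by_contra hne
        exact absurd x.2.2.2 (not_lt.2 (hF0 _ x.2.1 _ x.2.2.1 hne))
      intro x y hxy
      have h9 : x.1.1 = y.1.1 := congrArg Subtype.val hxy
      exact Subtype.ext (Prod.ext h9 ((hd x).symm.trans (h9.trans (hd y))))
    have h6 : (F.card : ℝ) ^ 2 * ((q - 2) / (q - 1)) ^ n ≤ F.card :=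
      h4.trans (by exact_mod_cast h5)
    have h7 : (0 : ℝ) < F.card := by exact_mod_cast h0
    have h8 : (F.card : ℝ) * ((q - 2) / (q - 1)) ^ n ≤ 1 := by
      refine le_of_mul_le_mul_left ?_ h7
      linarith
    rw [div_pow] at h8 ⊢
    rw [le_div_iff₀ (by positivity)]
    rw [← mul_div_assoc, div_le_one (by positivity)] at h8
    exact h8

end Pool.Agent.Run7.h764.BLA
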