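import Pool.Agent.Run7.h764.BLA.Fin

/-!
Gluing along triangles.
-/

set_option autoImplicit false
set_option linter.unusedSectionVars false

namespace Pool.Agent.Run7.h764.BLA

open Polynomial Pool.Agent.H207R2.BL

theorem exists_perm {k : ℕ} (s t : Fin 3 ↪ Fin k) :
    ∃ σ : Equiv.Perm (Fin k), ∀ i, σ (s i) = t i := by
  have := Equiv.Perm.isMultiplyPretransitive (Fin k) 3
  have h := this.exists_smul_eq s t
  obtain ⟨σ, hσ⟩ := h
  exact ⟨σ, fun i => by rw [← hσ]; rfl⟩

/-- the colours of three vertices -/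
def tr {U : Type} {k : ℕ} (g : U → Fin k) (x y z : U) (h1 : g x ≠ g y) (h2 : g y ≠ g z)
    (h3 : g x ≠ g z) : Fin 3 ↪ Fin k :=
  ⟨![g x, g y, g z], by
    intro i j hij
    fin_cases i <;> fin_cases j <;> simp_all⟩

theorem emb_ext {k : ℕ} (s t : Fin 3 ↪ Fin k) (h0 : s 0 = t 0) (h1 : s 1 = t 1)
    (h2 : s 2 = t 2) : s = t := by
  ext i
  fin_cases i
  · exact congrArg _ h0
  · exact congrArg _ h1
  · exact congrArg _ h2

theorem clique_sum_nat {V : Type} [Finite V] (G : SimpleGraph V) (A B : Set V) (x y z : V)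
    (hxA : x ∈ A) (hyA : y ∈ A) (hzA : z ∈ A) (hxB : x ∈ B) (hyB : y ∈ B) (hzB : z ∈ B)
    (hAB : ∀ v, v ∈ A → v ∈ B → v = x ∨ v = y ∨ v = z) (hcov : ∀ v, v ∈ A ∨ v ∈ B)
    (hxy : G.Adj x y) (hyz : G.Adj y z) (hxz : G.Adj x z)
    (hE : ∀ a b, G.Adj a b → (a ∈ A ∧ b ∈ A) ∨ (a ∈ B ∧ b ∈ B)) (k : ℕ) :
    Nat.card {g : V → Fin k // Proper G g} * Nat.card (Fin 3 ↪ Fin k) =
      Nat.card {g : A → Fin k // Proper (G.induce A) g} *
        Nat.card {g : B → Fin k // Proper (G.induce B) g} := by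
  classical
  choose π hπ using (fun s t : Fin 3 ↪ Fin k => exists_perm s t)
  rw [← Nat.card_prod, ← Nat.card_prod]
  let trG : {g : V → Fin k // Proper G g} → (Fin 3 ↪ Fin k) := fun g =>
    tr g.1 x y z (g.2 _ _ hxy) (g.2 _ _ hyz) (g.2 _ _ hxz)
  let trA : {g : A → Fin k // Proper (G.induce A) g} → (Fin 3 ↪ Fin k) := fun g =>
    tr g.1 ⟨x, hxA⟩ ⟨y, hyA⟩ ⟨z, hzA⟩ (g.2 _ _ hxy) (g.2 _ _ hyz) (g.2 _ _ hxz)
  let trB : {g : B → Fin k // Proper (G.induce B) g} → (Fin 3 ↪ Fin k) := fun g =>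
    tr g.1 ⟨x, hxB⟩ ⟨y, hyB⟩ ⟨z, hzB⟩ (g.2 _ _ hxy) (g.2 _ _ hyz) (g.2 _ _ hxz)
  let rec' : {g : A → Fin k // Proper (G.induce A) g} ×
      {g : B → Fin k // Proper (G.induce B) g} → V → Fin k := fun p v =>
    if hv : v ∈ A then p.1.1 ⟨v, hv⟩
    else (π (trA p.1) (trB p.2)).symm (p.2.1 ⟨v, (hcov v).resolve_left hv⟩)
  have recA : ∀ p v (hv : v ∈ A), rec' p v = p.1.1 ⟨v, hv⟩ := fun p v hv => dif_pos hv
  have recB : ∀ p v (hv : v ∈ B), rec' p v = (π (trA p.1) (trB p.2)).symm (p.2.1 ⟨v, hv⟩) := by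
    intro p v hv
    by_cases hvA : v ∈ A
    · rw [recA p v hvA, Equiv.eq_symm_apply]
      rcases hAB v hvA hv with rfl | rfl | rfl
      · exact hπ (trA p.1) (trB p.2) 0
      · exact hπ (trA p.1) (trB p.2) 1
      · exact hπ (trA p.1) (trB p.2) 2
    · exact dif_neg hvA
  have recP : ∀ p, Proper G (rec' p) := by
    intro p a b hab
    rcases hE a b hab with ⟨ha, hb⟩ | ⟨ha, hb⟩
    · rw [recA p a ha, recA p b hb]
      exact p.1.2 _ _ hab
    · rw [recB p a ha, recB p b hb]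
      intro h
      exact p.2.2 ⟨a, ha⟩ ⟨b, hb⟩ hab ((π _ _).symm.injective h)
  apply Nat.card_congr
  refine
    { toFun := fun p => (⟨fun v => p.1.1 v.1, fun a b h => p.1.2 _ _ h⟩,
        ⟨fun v => π (trG p.1) p.2 (p.1.1 v.1),
          fun a b h he => p.1.2 _ _ h ((π _ _).injective he)⟩)
      invFun := fun p => (⟨rec' p, recP p⟩, trB p.2)
      left_inv := ?_
      right_inv := ?_ }
  · rintro ⟨g, t⟩
    have hB : trB ⟨fun v => π (trG g) t (g.1 v.1),
        fun a b h he => g.2 _ _ h ((π _ _).injective he)⟩ = t := by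
      apply emb_ext
      · exact hπ (trG g) t 0
      · exact hπ (trG g) t 1
      · exact hπ (trG g) t 2
    refine Prod.ext (Subtype.ext (funext fun v => ?_)) hB
    by_cases hv : v ∈ A
    · exact recA _ v hv
    · have hvB := (hcov v).resolve_left hv
      refine (recB _ v hvB).trans ?_
      simp only [hB]
      exact (π (trG g) t).symm_apply_apply _
  · rintro ⟨a, b⟩
    have hG : trG ⟨rec' (a, b), recP (a, b)⟩ = trA a := by
      apply emb_ext
      · exact recA (a, b) x hxA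
      · exact recA (a, b) y hyA
      · exact recA (a, b) z hzA
    refine Prod.ext (Subtype.ext (funext fun v => ?_)) (Subtype.ext (funext fun v => ?_))
    · exact recA (a, b) v.1 v.2
    · simp only [hG]
      rw [recB (a, b) v.1 v.2]
      exact (π (trA a) (trB b)).apply_symm_apply _

theorem desc3 (k : ℕ) : ((Nat.card (Fin 3 ↪ Fin k) : ℕ) : ℝ) = k * (k - 1) * (k - 2) := by
  rw [Nat.card_eq_fintype_card, Fintype.card_embedding_eq, Fintype.card_fin, Fintype.card_fin]
  rcases k with _ | _ | k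
  · simp
  · simp [Nat.descFactorial]
  · simp only [Nat.descFactorial]
    push_cast
    ring

theorem clique_sum {V : Type} [Finite V] (G : SimpleGraph V) (A B : Set V) (x y z : V)
    (hxA : x ∈ A) (hyA : y ∈ A) (hzA : z ∈ A) (hxB : x ∈ B) (hyB : y ∈ B) (hzB : z ∈ B)
    (hAB : ∀ v, v ∈ A → v ∈ B → v = x ∨ v = y ∨ v = z) (hcov : ∀ v, v ∈ A ∨ v ∈ B)
    (hxy : G.Adj x y) (hyz : G.Adj y z) (hxz : G.Adj x z)
    (hE : ∀ a b, G.Adj a b → (a ∈ A ∧ b ∈ A) ∨ (a ∈ B ∧ b ∈ B)) :
    chr G * (X * (X - 1) * (X - 2)) = chr (G.induce A) * chr (G.induce B) := by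
  apply Polynomial.eq_of_infinite_eval_eq
  apply Set.infinite_of_injective_forall_mem (f := fun k : ℕ => (k : ℝ)) Nat.cast_injective
  intro k
  change (chr G * (X * (X - 1) * (X - 2))).eval (k : ℝ) =
    (chr (G.induce A) * chr (G.induce B)).eval (k : ℝ)
  rw [Polynomial.eval_mul, Polynomial.eval_mul (p := chr (G.induce A)), chr_spec G k,
    chr_spec (G.induce A) k, chr_spec (G.induce B) k, card_colorings, card_colorings,
    card_colorings]
  have h := clique_sum_nat G A B x y z hxA hyA hzA hxB hyB hzB hAB hcov hxy hyz hxz hE k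
  have h' := congrArg (Nat.cast : ℕ → ℝ) h
  rw [Nat.cast_mul, Nat.cast_mul, desc3] at h'
  simp only [Polynomial.eval_mul, Polynomial.eval_sub, Polynomial.eval_X, Polynomial.eval_one,
    Polynomial.eval_ofNat]
  exact h'

/-- graphs obtained from unions of two triangulated polygons by gluing along triangles -/
inductive Tg : (V : Type) → SimpleGraph V → Prop
  | union (n : ℕ) (S T : SimpleGraph (Fin (n + 2))) (V : Type) (G : SimpleGraph V)
      (e : (S ⊔ T) ≃g G) : TP S → TP T → Tg V G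
  | glue (V : Type) (G : SimpleGraph V) (A B : Set V) (x y z : V) (hA : x ∈ A ∧ y ∈ A ∧ z ∈ A)
      (hB : x ∈ B ∧ y ∈ B ∧ z ∈ B) (hAB : ∀ v, v ∈ A → v ∈ B → v = x ∨ v = y ∨ v = z)
      (hcov : ∀ v, v ∈ A ∨ v ∈ B) (hadj : G.Adj x y ∧ G.Adj y z ∧ G.Adj x z)
      (hE : ∀ a b, G.Adj a b → (a ∈ A ∧ b ∈ A) ∨ (a ∈ B ∧ b ∈ B)) :
      Tg A (G.induce A) → Tg B (G.induce B) → Tg V G

theorem Tg_bound {V : Type} {G : SimpleGraph V} (h : Tg V G) (q : ℝ) (hq : 4 ≤ q) :
    ∀ [Finite V], 2 ≤ Nat.card V ∧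
      |(chr G).eval q| ≤ q * (q - 1) * (q - 2) ^ (Nat.card V - 2) := by
  have hq2 : 0 < q - 2 := by linarith
  have hq1 : 0 < q - 1 := by linarith
  have hq0 : 0 < q := by linarith
  induction h with
  | union n S T V G e hS hT =>
    intro _
    have h1 : Nat.card V = n + 2 := by
      rw [← Nat.card_congr e.toEquiv, Nat.card_eq_fintype_card, Fintype.card_fin]
    have h2 : chr G = chr (S ⊔ T) := (eq_chr ((chr_spec (S ⊔ T)).of_iso e)).symm
    refine ⟨by omega, ?_⟩
    rw [h1, h2]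
    exact TP_bound hS hT q hq
  | glue V G A B x y z hA hB hAB hcov hadj hE _ _ ihA ihB =>
    intro hfin
    obtain ⟨a1, a2⟩ := @ihA inferInstance
    obtain ⟨b1, b2⟩ := @ihB inferInstance
    have hcs := clique_sum G A B x y z hA.1 hA.2.1 hA.2.2 hB.1 hB.2.1 hB.2.2 hAB hcov hadj.1
      hadj.2.1 hadj.2.2 hE
    have hev := congrArg (Polynomial.eval q) hcs
    simp only [Polynomial.eval_mul, Polynomial.eval_sub, Polynomial.eval_X, Polynomial.eval_one,
      Polynomial.eval_ofNat] at hev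
    have hcard : Nat.card A + Nat.card B = Nat.card V + 3 := by
      have e1 : Nat.card A = A.ncard := rfl
      have e2 : Nat.card B = B.ncard := rfl
      have h1 := Set.ncard_union_add_ncard_inter A B (Set.toFinite _) (Set.toFinite _)
      have h2 : A ∪ B = Set.univ := by
        ext v
        simpa using hcov v
      have h3 : A ∩ B = {x, y, z} := by
        ext v
        constructor
        · rintro ⟨h, h'⟩
          exact hAB v h h'
        · rintro (rfl | rfl | rfl)
          · exact ⟨hA.1, hB.1⟩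
          · exact ⟨hA.2.1, hB.2.1⟩
          · exact ⟨hA.2.2, hB.2.2⟩
      have h4 : ({x, y, z} : Set V).ncard = 3 :=
        Set.ncard_eq_three.2 ⟨x, y, z, hadj.1.ne, hadj.2.2.ne, hadj.2.1.ne, rfl⟩
      rw [h2, h3, h4, Set.ncard_univ] at h1
      omega
    -- both parts have at least three vertices
    have hA3 : 3 ≤ Nat.card A := by
      have h4 : ({x, y, z} : Set V).ncard = 3 :=
        Set.ncard_eq_three.2 ⟨x, y, z, hadj.1.ne, hadj.2.2.ne, hadj.2.1.ne, rfl⟩
      rw [← h4]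
      apply Set.ncard_le_ncard _ (Set.toFinite _)
      rintro v (rfl | rfl | rfl)
      · exact hA.1
      · exact hA.2.1
      · exact hA.2.2
    have hB3 : 3 ≤ Nat.card B := by
      have h4 : ({x, y, z} : Set V).ncard = 3 :=
        Set.ncard_eq_three.2 ⟨x, y, z, hadj.1.ne, hadj.2.2.ne, hadj.2.1.ne, rfl⟩
      rw [← h4]
      apply Set.ncard_le_ncard _ (Set.toFinite _)
      rintro v (rfl | rfl | rfl)
      · exact hB.1
      · exact hB.2.1
      · exact hB.2.2
    refine ⟨by omega, ?_⟩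
    have hc : 0 < q * (q - 1) * (q - 2) := by positivity
    refine le_of_mul_le_mul_right ?_ hc
    calc |(chr G).eval q| * (q * (q - 1) * (q - 2))
        = |(chr G).eval q * (q * (q - 1) * (q - 2))| := by
          rw [abs_mul, abs_of_pos hc]
      _ = |(chr (G.induce A)).eval q| * |(chr (G.induce B)).eval q| := by
          rw [hev, abs_mul]
      _ ≤ (q * (q - 1) * (q - 2) ^ (Nat.card A - 2)) *
          (q * (q - 1) * (q - 2) ^ (Nat.card B - 2)) :=
          mul_le_mul a2 b2 (abs_nonneg _) (by positivity)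
      _ = q * (q - 1) * (q - 2) ^ (Nat.card V - 2) * (q * (q - 1) * (q - 2)) := by
          have e1 : Nat.card A - 2 = (Nat.card A - 3) + 1 := by omega
          have e2 : Nat.card B - 2 = (Nat.card B - 3) + 1 := by omega
          have e3 : Nat.card V - 2 = (Nat.card A - 3) + (Nat.card B - 3) + 1 := by omega
          rw [e1, e2, e3]
          ring

end Pool.Agent.Run7.h764.BLA
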