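import Pool.Agent.Run7.h764.BLA.Quot

/-!
Gluing along edges and triangles.
-/

set_option autoImplicit false
set_option linter.unusedSectionVars false

namespace Pool.Agent.Run7.h764.BLA

open Polynomial Pool.Agent.H207R2.BL

theorem exists_perm2 {k : ℕ} (s t : Fin 2 ↪ Fin k) :
    ∃ σ : Equiv.Perm (Fin k), ∀ i, σ (s i) = t i := by
  have := Equiv.Perm.isMultiplyPretransitive (Fin k) 2
  have h := this.exists_smul_eq s t
  obtain ⟨σ, hσ⟩ := h
  exact ⟨σ, fun i => by rw [← hσ]; rfl⟩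

/-- the colours of two vertices -/
def tr2 {U : Type} {k : ℕ} (g : U → Fin k) (x y : U) (h1 : g x ≠ g y) : Fin 2 ↪ Fin k :=
  ⟨![g x, g y], by
    intro i j hij
    fin_cases i <;> fin_cases j <;> simp_all⟩

theorem emb_ext2 {k : ℕ} (s t : Fin 2 ↪ Fin k) (h0 : s 0 = t 0) (h1 : s 1 = t 1) : s = t := by
  ext i
  fin_cases i
  · exact congrArg _ h0
  · exact congrArg _ h1

theorem clique_sum_nat2 {V : Type} [Finite V] (G : SimpleGraph V) (A B : Set V) (x y : V)
    (hxA : x ∈ A) (hyA : y ∈ A) (hxB : x ∈ B) (hyB : y ∈ B)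
    (hAB : ∀ v, v ∈ A → v ∈ B → v = x ∨ v = y) (hcov : ∀ v, v ∈ A ∨ v ∈ B)
    (hxy : G.Adj x y)
    (hE : ∀ a b, G.Adj a b → (a ∈ A ∧ b ∈ A) ∨ (a ∈ B ∧ b ∈ B)) (k : ℕ) :
    Nat.card {g : V → Fin k // Proper G g} * Nat.card (Fin 2 ↪ Fin k) =
      Nat.card {g : A → Fin k // Proper (G.induce A) g} *
        Nat.card {g : B → Fin k // Proper (G.induce B) g} := by
  classical
  choose π hπ using (fun s t : Fin 2 ↪ Fin k => exists_perm2 s t)
  rw [← Nat.card_prod, ← Nat.card_prod]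
  let trG : {g : V → Fin k // Proper G g} → (Fin 2 ↪ Fin k) := fun g =>
    tr2 g.1 x y (g.2 _ _ hxy)
  let trA : {g : A → Fin k // Proper (G.induce A) g} → (Fin 2 ↪ Fin k) := fun g =>
    tr2 g.1 ⟨x, hxA⟩ ⟨y, hyA⟩ (g.2 _ _ hxy)
  let trB : {g : B → Fin k // Proper (G.induce B) g} → (Fin 2 ↪ Fin k) := fun g =>
    tr2 g.1 ⟨x, hxB⟩ ⟨y, hyB⟩ (g.2 _ _ hxy)
  let rec' : {g : A → Fin k // Proper (G.induce A) g} ×
      {g : B → Fin k // Proper (G.induce B) g} → V → Fin k := fun p v =>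
    if hv : v ∈ A then p.1.1 ⟨v, hv⟩
    else (π (trA p.1) (trB p.2)).symm (p.2.1 ⟨v, (hcov v).resolve_left hv⟩)
  have recA : ∀ p v (hv : v ∈ A), rec' p v = p.1.1 ⟨v, hv⟩ := fun p v hv => dif_pos hv
  have recB : ∀ p v (hv : v ∈ B), rec' p v = (π (trA p.1) (trB p.2)).symm (p.2.1 ⟨v, hv⟩) := by
    intro p v hv
    by_cases hvA : v ∈ A
    · rw [recA p v hvA, Equiv.eq_symm_apply]
      rcases hAB v hvA hv with rfl | rfl
      · exact hπ (trA p.1) (trB p.2) 0
      · exact hπ (trA p.1) (trB p.2) 1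
    · exact dif_neg hvA
  have recP : ∀ p, Proper G (rec' p) := by
    intro p a b hab
    rcases hE a b hab with ⟨ha, hb⟩ | ⟨ha, hb⟩
    · rw [recA p a ha, recA p b hb]
      exact p.1.2 _ _ hab
    · rw [recB p a ha, recB p b hb]
      intro h
      exact p.2.2 ⟨a, ha⟩ ⟨b, hb⟩ hab ((π _ _).symm.injective h)
  apply Nat.card_congr
  refine
    { toFun := fun p => (⟨fun v => p.1.1 v.1, fun a b h => p.1.2 _ _ h⟩,
        ⟨fun v => π (trG p.1) p.2 (p.1.1 v.1),
          fun a b h he => p.1.2 _ _ h ((π _ _).injective he)⟩)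
      invFun := fun p => (⟨rec' p, recP p⟩, trB p.2)
      left_inv := ?_
      right_inv := ?_ }
  · rintro ⟨g, t⟩
    have hB : trB ⟨fun v => π (trG g) t (g.1 v.1),
        fun a b h he => g.2 _ _ h ((π _ _).injective he)⟩ = t := by
      apply emb_ext2
      · exact hπ (trG g) t 0
      · exact hπ (trG g) t 1
    refine Prod.ext (Subtype.ext (funext fun v => ?_)) hB
    by_cases hv : v ∈ A
    · exact recA _ v hv
    · have hvB := (hcov v).resolve_left hv
      refine (recB _ v hvB).trans ?_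
      simp only [hB]
      exact (π (trG g) t).symm_apply_apply _
  · rintro ⟨a, b⟩
    have hG : trG ⟨rec' (a, b), recP (a, b)⟩ = trA a := by
      apply emb_ext2
      · exact recA (a, b) x hxA
      · exact recA (a, b) y hyA
    refine Prod.ext (Subtype.ext (funext fun v => ?_)) (Subtype.ext (funext fun v => ?_))
    · exact recA (a, b) v.1 v.2
    · simp only [hG]
      rw [recB (a, b) v.1 v.2]
      exact (π (trA a) (trB b)).apply_symm_apply _

theorem desc2 (k : ℕ) : ((Nat.card (Fin 2 ↪ Fin k) : ℕ) : ℝ) = k * (k - 1) := by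
  rw [Nat.card_eq_fintype_card, Fintype.card_embedding_eq, Fintype.card_fin, Fintype.card_fin]
  rcases k with _ | k
  · simp
  · simp only [Nat.descFactorial]
    push_cast
    ring

theorem clique_sum2 {V : Type} [Finite V] (G : SimpleGraph V) (A B : Set V) (x y : V)
    (hxA : x ∈ A) (hyA : y ∈ A) (hxB : x ∈ B) (hyB : y ∈ B)
    (hAB : ∀ v, v ∈ A → v ∈ B → v = x ∨ v = y) (hcov : ∀ v, v ∈ A ∨ v ∈ B)
    (hxy : G.Adj x y)
    (hE : ∀ a b, G.Adj a b → (a ∈ A ∧ b ∈ A) ∨ (a ∈ B ∧ b ∈ B)) :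
    chr G * (X * (X - 1)) = chr (G.induce A) * chr (G.induce B) := by
  apply Polynomial.eq_of_infinite_eval_eq
  apply Set.infinite_of_injective_forall_mem (f := fun k : ℕ => (k : ℝ)) Nat.cast_injective
  intro k
  change (chr G * (X * (X - 1))).eval (k : ℝ) =
    (chr (G.induce A) * chr (G.induce B)).eval (k : ℝ)
  rw [Polynomial.eval_mul, Polynomial.eval_mul (p := chr (G.induce A)), chr_spec G k,
    chr_spec (G.induce A) k, chr_spec (G.induce B) k, card_colorings, card_colorings,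
    card_colorings]
  have h := clique_sum_nat2 G A B x y hxA hyA hxB hyB hAB hcov hxy hE k
  have h' := congrArg (Nat.cast : ℕ → ℝ) h
  rw [Nat.cast_mul, Nat.cast_mul, desc2] at h'
  simp only [Polynomial.eval_mul, Polynomial.eval_sub, Polynomial.eval_X, Polynomial.eval_one]
  exact h'

/-- graphs obtained from unions of two triangulated polygons by gluing along edges and triangles -/
inductive Tg2 : (V : Type) → SimpleGraph V → Prop
  | union (n : ℕ) (S T : SimpleGraph (Fin (n + 2))) (V : Type) (G : SimpleGraph V)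
      (e : (S ⊔ T) ≃g G) : TP S → TP T → Tg2 V G
  | edge (V : Type) (G : SimpleGraph V) (A B : Set V) (x y : V) (hA : x ∈ A ∧ y ∈ A)
      (hB : x ∈ B ∧ y ∈ B) (hAB : ∀ v, v ∈ A → v ∈ B → v = x ∨ v = y)
      (hcov : ∀ v, v ∈ A ∨ v ∈ B) (hadj : G.Adj x y)
      (hE : ∀ a b, G.Adj a b → (a ∈ A ∧ b ∈ A) ∨ (a ∈ B ∧ b ∈ B)) :
      Tg2 A (G.induce A) → Tg2 B (G.induce B) → Tg2 V G
  | triangle (V : Type) (G : SimpleGraph V) (A B : Set V) (x y z : V)
      (hA : x ∈ A ∧ y ∈ A ∧ z ∈ A)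
      (hB : x ∈ B ∧ y ∈ B ∧ z ∈ B) (hAB : ∀ v, v ∈ A → v ∈ B → v = x ∨ v = y ∨ v = z)
      (hcov : ∀ v, v ∈ A ∨ v ∈ B) (hadj : G.Adj x y ∧ G.Adj y z ∧ G.Adj x z)
      (hE : ∀ a b, G.Adj a b → (a ∈ A ∧ b ∈ A) ∨ (a ∈ B ∧ b ∈ B)) :
      Tg2 A (G.induce A) → Tg2 B (G.induce B) → Tg2 V G

theorem card_edge {V : Type} [Finite V] (G : SimpleGraph V) (A B : Set V) (x y : V)
    (hA : x ∈ A ∧ y ∈ A) (hB : x ∈ B ∧ y ∈ B) (hAB : ∀ v, v ∈ A → v ∈ B → v = x ∨ v = y)
    (hcov : ∀ v, v ∈ A ∨ v ∈ B) (hadj : G.Adj x y) :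
    Nat.card A + Nat.card B = Nat.card V + 2 ∧ 2 ≤ Nat.card A ∧ 2 ≤ Nat.card B := by
  have e1 : Nat.card A = A.ncard := rfl
  have e2 : Nat.card B = B.ncard := rfl
  have h1 := Set.ncard_union_add_ncard_inter A B (Set.toFinite _) (Set.toFinite _)
  have h2 : A ∪ B = Set.univ := by
    ext v
    simpa using hcov v
  have h3 : A ∩ B = {x, y} := by
    ext v
    constructor
    · rintro ⟨h, h'⟩
      exact hAB v h h'
    · rintro (rfl | rfl)
      · exact ⟨hA.1, hB.1⟩
      · exact ⟨hA.2, hB.2⟩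
  have h4 : ({x, y} : Set V).ncard = 2 := Set.ncard_pair hadj.ne
  rw [h2, h3, h4, Set.ncard_univ] at h1
  have h5 : ({x, y} : Set V).ncard ≤ A.ncard := by
    apply Set.ncard_le_ncard _ (Set.toFinite _)
    rintro v (rfl | rfl)
    · exact hA.1
    · exact hA.2
  have h6 : ({x, y} : Set V).ncard ≤ B.ncard := by
    apply Set.ncard_le_ncard _ (Set.toFinite _)
    rintro v (rfl | rfl)
    · exact hB.1
    · exact hB.2
  omega

theorem card_tri {V : Type} [Finite V] (G : SimpleGraph V) (A B : Set V) (x y z : V)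
    (hA : x ∈ A ∧ y ∈ A ∧ z ∈ A) (hB : x ∈ B ∧ y ∈ B ∧ z ∈ B)
    (hAB : ∀ v, v ∈ A → v ∈ B → v = x ∨ v = y ∨ v = z)
    (hcov : ∀ v, v ∈ A ∨ v ∈ B) (hadj : G.Adj x y ∧ G.Adj y z ∧ G.Adj x z) :
    Nat.card A + Nat.card B = Nat.card V + 3 ∧ 3 ≤ Nat.card A ∧ 3 ≤ Nat.card B := by
  have e1 : Nat.card A = A.ncard := rfl
  have e2 : Nat.card B = B.ncard := rfl
  have h1 := Set.ncard_union_add_ncard_inter A B (Set.toFinite _) (Set.toFinite _)
  have h2 : A ∪ B = Set.univ := by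
    ext v
    simpa using hcov v
  have h3 : A ∩ B = {x, y, z} := by
    ext v
    constructor
    · rintro ⟨h, h'⟩
      exact hAB v h h'
    · rintro (rfl | rfl | rfl)
      · exact ⟨hA.1, hB.1⟩
      · exact ⟨hA.2.1, hB.2.1⟩
      · exact ⟨hA.2.2, hB.2.2⟩
  have h4 : ({x, y, z} : Set V).ncard = 3 :=
    Set.ncard_eq_three.2 ⟨x, y, z, hadj.1.ne, hadj.2.2.ne, hadj.2.1.ne, rfl⟩
  rw [h2, h3, h4, Set.ncard_univ] at h1
  have h5 : ({x, y, z} : Set V).ncard ≤ A.ncard := by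
    apply Set.ncard_le_ncard _ (Set.toFinite _)
    rintro v (rfl | rfl | rfl)
    · exact hA.1
    · exact hA.2.1
    · exact hA.2.2
  have h6 : ({x, y, z} : Set V).ncard ≤ B.ncard := by
    apply Set.ncard_le_ncard _ (Set.toFinite _)
    rintro v (rfl | rfl | rfl)
    · exact hB.1
    · exact hB.2.1
    · exact hB.2.2
  omega

theorem Tg2_bound {V : Type} {G : SimpleGraph V} (h : Tg2 V G) (q : ℝ) (hq : 4 ≤ q) :
    ∀ [Finite V], 2 ≤ Nat.card V ∧
      |(chr G).eval q| ≤ q * (q - 1) * (q - 2) ^ (Nat.card V - 2) := by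
  have hq2 : 0 < q - 2 := by linarith
  have hq1 : 0 < q - 1 := by linarith
  have hq0 : 0 < q := by linarith
  induction h with
  | union n S T V G e hS hT =>
    intro _
    have h1 : Nat.card V = n + 2 := by
      rw [← Nat.card_congr e.toEquiv, Nat.card_eq_fintype_card, Fintype.card_fin]
    have h2 : chr G = chr (S ⊔ T) := (eq_chr ((chr_spec (S ⊔ T)).of_iso e)).symm
    refine ⟨by omega, ?_⟩
    rw [h1, h2]
    exact TP_bound hS hT q hq
  | edge V G A B x y hA hB hAB hcov hadj hE _ _ ihA ihB =>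
    intro hfin
    obtain ⟨a1, a2⟩ := @ihA inferInstance
    obtain ⟨b1, b2⟩ := @ihB inferInstance
    have hcs := clique_sum2 G A B x y hA.1 hA.2 hB.1 hB.2 hAB hcov hadj hE
    have hev := congrArg (Polynomial.eval q) hcs
    simp only [Polynomial.eval_mul, Polynomial.eval_sub, Polynomial.eval_X,
      Polynomial.eval_one] at hev
    obtain ⟨hcard, hA3, hB3⟩ := card_edge G A B x y hA hB hAB hcov hadj
    refine ⟨by omega, ?_⟩
    have hc : 0 < q * (q - 1) := by positivity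
    refine le_of_mul_le_mul_right ?_ hc
    calc |(chr G).eval q| * (q * (q - 1))
        = |(chr G).eval q * (q * (q - 1))| := by
          rw [abs_mul, abs_of_pos hc]
      _ = |(chr (G.induce A)).eval q| * |(chr (G.induce B)).eval q| := by
          rw [hev, abs_mul]
      _ ≤ (q * (q - 1) * (q - 2) ^ (Nat.card A - 2)) *
          (q * (q - 1) * (q - 2) ^ (Nat.card B - 2)) :=
          mul_le_mul a2 b2 (abs_nonneg _) (by positivity)
      _ = q * (q - 1) * (q - 2) ^ (Nat.card V - 2) * (q * (q - 1)) := by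
          have e3 : Nat.card V - 2 = (Nat.card A - 2) + (Nat.card B - 2) := by omega
          rw [e3]
          ring
  | triangle V G A B x y z hA hB hAB hcov hadj hE _ _ ihA ihB =>
    intro hfin
    obtain ⟨a1, a2⟩ := @ihA inferInstance
    obtain ⟨b1, b2⟩ := @ihB inferInstance
    have hcs := clique_sum G A B x y z hA.1 hA.2.1 hA.2.2 hB.1 hB.2.1 hB.2.2 hAB hcov hadj.1
      hadj.2.1 hadj.2.2 hE
    have hev := congrArg (Polynomial.eval q) hcs
    simp only [Polynomial.eval_mul, Polynomial.eval_sub, Polynomial.eval_X, Polynomial.eval_one,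
      Polynomial.eval_ofNat] at hev
    obtain ⟨hcard, hA3, hB3⟩ := card_tri G A B x y z hA hB hAB hcov hadj
    refine ⟨by omega, ?_⟩
    have hc : 0 < q * (q - 1) * (q - 2) := by positivity
    refine le_of_mul_le_mul_right ?_ hc
    calc |(chr G).eval q| * (q * (q - 1) * (q - 2))
        = |(chr G).eval q * (q * (q - 1) * (q - 2))| := by
          rw [abs_mul, abs_of_pos hc]
      _ = |(chr (G.induce A)).eval q| * |(chr (G.induce B)).eval q| := by
          rw [hev, abs_mul]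
      _ ≤ (q * (q - 1) * (q - 2) ^ (Nat.card A - 2)) *
          (q * (q - 1) * (q - 2) ^ (Nat.card B - 2)) :=
          mul_le_mul a2 b2 (abs_nonneg _) (by positivity)
      _ = q * (q - 1) * (q - 2) ^ (Nat.card V - 2) * (q * (q - 1) * (q - 2)) := by
          have e1 : Nat.card A - 2 = (Nat.card A - 3) + 1 := by omega
          have e2 : Nat.card B - 2 = (Nat.card B - 3) + 1 := by omega
          have e3 : Nat.card V - 2 = (Nat.card A - 3) + (Nat.card B - 3) + 1 := by omega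
          rw [e1, e2, e3]
          ring

theorem Tg2_triangle {V : Type} {G : SimpleGraph V} (h : Tg2 V G) :
    ∀ [Finite V], 3 ≤ Nat.card V → ∃ x y z, G.Adj x y ∧ G.Adj y z ∧ G.Adj x z := by
  induction h with
  | union n S T V G e hS hT =>
    intro _ hc
    have h1 : Nat.card V = n + 2 := by
      rw [← Nat.card_congr e.toEquiv, Nat.card_eq_fintype_card, Fintype.card_fin]
    obtain ⟨x, y, z, hxy, hyz, hxz⟩ := hS.triangle (by omega)
    exact ⟨e x, e y, e z, e.map_rel_iff.2 (Or.inl hxy), e.map_rel_iff.2 (Or.inl hyz),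
      e.map_rel_iff.2 (Or.inl hxz)⟩
  | edge V G A B x y hA hB hAB hcov hadj hE _ _ ihA ihB =>
    intro hfin hc
    obtain ⟨hcard, hA3, hB3⟩ := card_edge G A B x y hA hB hAB hcov hadj
    by_cases h3 : 3 ≤ Nat.card A
    · obtain ⟨a, b, c, h4, h5, h6⟩ := @ihA inferInstance h3
      exact ⟨a.1, b.1, c.1, h4, h5, h6⟩
    · obtain ⟨a, b, c, h4, h5, h6⟩ := @ihB inferInstance (by omega)
      exact ⟨a.1, b.1, c.1, h4, h5, h6⟩
  | triangle V G A B x y z hA hB hAB hcov hadj hE _ _ _ _ =>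
    intro _ _
    exact ⟨x, y, z, hadj.1, hadj.2.1, hadj.2.2⟩

/-- the bound for the quotient -/
theorem quot_bound2 {V : Type} [Finite V] {G : SimpleGraph V} (h : Tg2 V G) (n : ℕ)
    (hn : Nat.card V = n + 3) (R : ℝ[X]) (hR : chr G = X * (X - 1) * (X - 2) * R) (l : ℝ)
    (hl : 4 ≤ l) : |R.eval l| ≤ (l - 2) ^ n := by
  have hb := (Tg2_bound h l hl).2
  have e : n + 3 - 2 = n + 1 := by omega
  rw [hn, e, hR] at hb
  simp only [Polynomial.eval_mul, Polynomial.eval_sub, Polynomial.eval_X, Polynomial.eval_one,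
    Polynomial.eval_ofNat] at hb
  have l0 : 0 < l := by linarith
  have l1 : 0 < l - 1 := by linarith
  have l2 : 0 < l - 2 := by linarith
  have hc : 0 < l * (l - 1) * (l - 2) := by positivity
  rw [abs_mul, abs_of_pos hc] at hb
  refine le_of_mul_le_mul_left (hb.trans_eq ?_) hc
  rw [pow_succ]
  ring

end Pool.Agent.Run7.h764.BLA
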