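import Pool.Agent.Run7.h764.BLA.Main

/-!
Noncrossing graphs on `0, …, n+1`: paths, triangulated polygons, drawings.
-/

set_option autoImplicit false
set_option linter.unusedSectionVars false

namespace Pool.Agent.Run7.h764.BLA

open Polynomial Pool.Agent.H207R2.BL

theorem path_nc (n : ℕ) : NC (SimpleGraph.pathGraph (n + 2)) := by
  intro a b c d h1 h2 h3 h4 h5
  rw [SimpleGraph.pathGraph_adj] at h4 h5
  rw [Fin.lt_def] at h1 h2 h3
  omega

theorem path_le {n : ℕ} (T : SimpleGraph (Fin (n + 2)))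
    (hT : ∀ i j : Fin (n + 2), i.val + 1 = j.val → T.Adj i j) :
    SimpleGraph.pathGraph (n + 2) ≤ T := by
  intro i j hij
  rw [SimpleGraph.pathGraph_adj] at hij
  rcases hij with h | h
  · exact hT i j h
  · exact (hT j i h).symm

theorem path_val (n : ℕ) (q : ℝ) :
    Pv q (SimpleGraph.pathGraph (n + 2)) = q * (q - 1) ^ (n + 1) := by
  have hP : Pth (Fin.val : Fin (n + 2) → ℕ) (SimpleGraph.pathGraph (n + 2)) := by
    refine ⟨Fin.val_injective, ?_⟩
    intro a b hab
    rw [SimpleGraph.pathGraph_adj]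
    constructor
    · intro h c hc
      omega
    · intro h
      left
      by_contra hne
      have h1 := h ⟨a.val + 1, by omega⟩
      apply h1
      simp only
      omega
  unfold Pv
  rw [pth_val _ _ hP (n + 1) (by rw [Nat.card_eq_fintype_card, Fintype.card_fin])]
  simp

/-- triangulated polygon -/
def TP {n : ℕ} (T : SimpleGraph (Fin (n + 2))) : Prop :=
  NC T ∧ T.Adj 0 (Fin.last (n + 1)) ∧
    ∀ a c : Fin (n + 2), T.Adj a c → a.val + 1 < c.val →
      ∃ b, a < b ∧ b < c ∧ T.Adj a b ∧ T.Adj b c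

theorem TP.tri {n : ℕ} {T : SimpleGraph (Fin (n + 2))} (h : TP T) :
    Tri (Fin.val : Fin (n + 2) → ℕ) T := by
  refine ⟨Fin.val_injective, fun a b c d h1 h2 h3 h4 h5 => h.1 a b c d h1 h2 h3 h4 h5, ?_, ?_⟩
  · intro a c b hac hab hbc
    obtain ⟨b', h1, h2, h3, h4⟩ := h.2.2 a c hac (by omega)
    exact ⟨b', h1, h2, h3, h4⟩
  · intro a c _ ha hc
    have h1 : a = 0 := by
      apply Fin.ext
      have := ha 0
      simpa using this
    have h2 : c = Fin.last (n + 1) := by
      apply Fin.ext
      have := hc (Fin.last (n + 1))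
      have h3 := c.2
      simp only [Fin.val_last] at this ⊢
      omega
    rw [h1, h2]
    exact h.2.1

theorem TP_val {n : ℕ} {T : SimpleGraph (Fin (n + 2))} (h : TP T) (q : ℝ) :
    Pv q T = q * (q - 1) * (q - 2) ^ n := by
  unfold Pv
  rw [tri_val _ _ h.tri n (by rw [Nat.card_eq_fintype_card, Fintype.card_fin])]
  simp

theorem TP_bound {n : ℕ} {S T : SimpleGraph (Fin (n + 2))} (hS : TP S) (hT : TP T) (q : ℝ)
    (hq : 4 ≤ q) : |Pv q (S ⊔ T)| ≤ q * (q - 1) * (q - 2) ^ n := by
  have h0 : 0 ≤ q * (q - 1) * (q - 2) ^ n := by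
    have a1 : 0 ≤ q := by linarith
    have a2 : 0 ≤ q - 1 := by linarith
    have a3 : 0 ≤ q - 2 := by linarith
    positivity
  have h := pt S T hS.1 hT.1 q hq
  rw [TP_val hS, TP_val hT] at h
  apply abs_le_of_sq_le_sq _ h0
  linarith

/-- the side -/
noncomputable def sg {n : ℕ} (S : SimpleGraph (Fin n)) (u v : Fin n) : ℝ := by
  classical
  exact if S.Adj u v then 1 else -1

/-- the arc -/
noncomputable def arc {n : ℕ} (S : SimpleGraph (Fin n)) (u v : Fin n) (t : ℝ) : ℝ × ℝ :=
  ((u.val : ℝ) + ((v.val : ℝ) - u.val) * t,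
    sg S u v * Real.sqrt ((((v.val : ℝ) - u.val) * t) * (((v.val : ℝ) - u.val) * (1 - t))))

theorem sg_comm {n : ℕ} (S : SimpleGraph (Fin n)) (u v : Fin n) : sg S u v = sg S v u := by
  unfold sg
  by_cases h : S.Adj u v
  · rw [if_pos h, if_pos h.symm]
  · rw [if_neg h, if_neg (fun h' => h h'.symm)]

theorem arc_symm {n : ℕ} (S : SimpleGraph (Fin n)) (u v : Fin n) (t : ℝ) :
    arc S u v t = arc S v u (1 - t) := by
  unfold arc
  rw [sg_comm S v u]
  refine Prod.ext ?_ ?_
  · simp only
    ring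
  · simp only
    congr 2
    ring

/-- two different arcs `a b` and `c d` (`a < b`, `c < d`) on the same side which do not cross do
not meet -/
theorem arcs_ne {a b c d x : ℝ} (hax : a < x) (hxb : x < b) (hcx : c < x) (hxd : x < d)
    (hne : a ≠ c ∨ b ≠ d) (h : (a ≤ c ∧ d ≤ b) ∨ (c ≤ a ∧ b ≤ d)) :
    (x - a) * (b - x) ≠ (x - c) * (d - x) := by
  intro heq
  rcases h with ⟨h1, h2⟩ | ⟨h1, h2⟩
  · have e1 : (x - c) * (d - x) ≤ (x - a) * (d - x) :=
      mul_le_mul_of_nonneg_right (by linarith) (by linarith)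
    have e2 : (x - a) * (d - x) ≤ (x - a) * (b - x) :=
      mul_le_mul_of_nonneg_left (by linarith) (by linarith)
    rcases hne with h | h
    · have : (x - c) * (d - x) < (x - a) * (d - x) :=
        mul_lt_mul_of_pos_right (by have := lt_of_le_of_ne h1 h; linarith) (by linarith)
      linarith
    · have : (x - a) * (d - x) < (x - a) * (b - x) :=
        mul_lt_mul_of_pos_left (by have := lt_of_le_of_ne h2 (Ne.symm h); linarith) (by linarith)
      linarith
  · have e1 : (x - a) * (b - x) ≤ (x - c) * (b - x) :=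
      mul_le_mul_of_nonneg_right (by linarith) (by linarith)
    have e2 : (x - c) * (b - x) ≤ (x - c) * (d - x) :=
      mul_le_mul_of_nonneg_left (by linarith) (by linarith)
    rcases hne with h | h
    · have : (x - a) * (b - x) < (x - c) * (b - x) :=
        mul_lt_mul_of_pos_right (by have := lt_of_le_of_ne h1 (Ne.symm h); linarith) (by linarith)
      linarith
    · have : (x - c) * (b - x) < (x - c) * (d - x) :=
        mul_lt_mul_of_pos_left (by have := lt_of_le_of_ne h2 h; linarith) (by linarith)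
      linarith

/-- the union of two noncrossing graphs is drawn in the plane -/
theorem union_drawing {n : ℕ} (S T : SimpleGraph (Fin n)) (hS : NC S) (hT : NC T) :
    IsDrawing (S ⊔ T) (fun v => ((v.val : ℝ), (0 : ℝ))) (arc S) := by
  have hval : ∀ u v : Fin n, ((u.val : ℕ) : ℝ) = v.val → u = v := fun u v h =>
    Fin.ext (by exact_mod_cast h)
  have hpos : ∀ u v : Fin n, u ≠ v → ∀ t ∈ Set.Ioo (0 : ℝ) 1,
      0 < ((((v.val : ℝ) - u.val) * t) * (((v.val : ℝ) - u.val) * (1 - t))) := by
    intro u v huv t ht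
    have h1 : (v.val : ℝ) - u.val ≠ 0 := fun h => huv (hval u v (by linarith))
    have h2 : 0 < ((v.val : ℝ) - u.val) ^ 2 := by positivity
    have h3 : 0 < t * (1 - t) := mul_pos ht.1 (by linarith [ht.2])
    calc (0 : ℝ) < ((v.val : ℝ) - u.val) ^ 2 * (t * (1 - t)) := mul_pos h2 h3
      _ = _ := by ring
  have hsg : ∀ u v : Fin n, sg S u v = 1 ∨ sg S u v = -1 := by
    intro u v
    unfold sg
    split_ifs <;> simp
  refine ⟨fun u v h => hval u v (congrArg Prod.fst h), ?_, ?_⟩
  · intro u v huv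
    have hne : (v.val : ℝ) - u.val ≠ 0 := fun h => huv.ne (hval u v (by linarith))
    refine ⟨?_, ?_, ?_, ?_, ?_⟩
    · apply Continuous.continuousOn
      unfold arc
      fun_prop
    · intro s _ t _ hst
      have h1 : (u.val : ℝ) + ((v.val : ℝ) - u.val) * s =
          (u.val : ℝ) + ((v.val : ℝ) - u.val) * t := congrArg Prod.fst hst
      exact mul_left_cancel₀ hne (by linarith)
    · simp [arc]
    · simp [arc]
    · intro t ht w h
      have h1 : sg S u v * Real.sqrt ((((v.val : ℝ) - u.val) * t) *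
          (((v.val : ℝ) - u.val) * (1 - t))) = 0 := congrArg Prod.snd h
      have h2 := Real.sqrt_pos.2 (hpos u v huv.ne t ht)
      rcases hsg u v with h3 | h3
      · rw [h3] at h1
        linarith
      · rw [h3] at h1
        linarith
  · -- different edges
    -- first for edges written in increasing order
    have key : ∀ a b c d : Fin n, a < b → c < d → (S ⊔ T).Adj a b → (S ⊔ T).Adj c d →
        (a ≠ c ∨ b ≠ d) → ∀ t ∈ Set.Ioo (0 : ℝ) 1, ∀ t' ∈ Set.Ioo (0 : ℝ) 1,
        arc S a b t ≠ arc S c d t' := by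
      intro a b c d hab hcd h1 h2 hne t ht t' ht' heq
      have e1 : (a.val : ℝ) + ((b.val : ℝ) - a.val) * t =
          (c.val : ℝ) + ((d.val : ℝ) - c.val) * t' := congrArg Prod.fst heq
      have e2 : sg S a b * Real.sqrt ((((b.val : ℝ) - a.val) * t) *
          (((b.val : ℝ) - a.val) * (1 - t))) = sg S c d * Real.sqrt ((((d.val : ℝ) - c.val) * t') *
          (((d.val : ℝ) - c.val) * (1 - t'))) := congrArg Prod.snd heq
      have p1 := Real.sqrt_pos.2 (hpos a b hab.ne t ht)
      have p2 := Real.sqrt_pos.2 (hpos c d hcd.ne t' ht')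
      have hs : sg S a b = sg S c d := by
        rcases hsg a b with h3 | h3 <;> rcases hsg c d with h4 | h4
        · rw [h3, h4]
        · rw [h3, h4] at e2
          linarith
        · rw [h3, h4] at e2
          linarith
        · rw [h3, h4]
      have e3 : Real.sqrt ((((b.val : ℝ) - a.val) * t) *
          (((b.val : ℝ) - a.val) * (1 - t))) = Real.sqrt ((((d.val : ℝ) - c.val) * t') *
          (((d.val : ℝ) - c.val) * (1 - t'))) := by
        rw [hs] at e2
        rcases hsg c d with h4 | h4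
        · rw [h4] at e2
          linarith
        · rw [h4] at e2
          linarith
      have e4 := (Real.sqrt_inj (hpos a b hab.ne t ht).le (hpos c d hcd.ne t' ht').le).1 e3
      set x : ℝ := (a.val : ℝ) + ((b.val : ℝ) - a.val) * t with hx
      have rab : (a.val : ℝ) < b.val := by exact_mod_cast hab
      have rcd : (c.val : ℝ) < d.val := by exact_mod_cast hcd
      have i1 : (a.val : ℝ) < x := by
        have : 0 < ((b.val : ℝ) - a.val) * t := mul_pos (by linarith) ht.1
        linarith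
      have i2 : x < b.val := by
        have : 0 < ((b.val : ℝ) - a.val) * (1 - t) := mul_pos (by linarith) (by linarith [ht.2])
        have e : x = b.val - ((b.val : ℝ) - a.val) * (1 - t) := by rw [hx]; ring
        linarith
      have i3 : (c.val : ℝ) < x := by
        have : 0 < ((d.val : ℝ) - c.val) * t' := mul_pos (by linarith) ht'.1
        linarith
      have i4 : x < d.val := by
        have : 0 < ((d.val : ℝ) - c.val) * (1 - t') := mul_pos (by linarith) (by linarith [ht'.2])
        have e : x = d.val - ((d.val : ℝ) - c.val) * (1 - t') := by rw [e1]; ring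
        linarith
      have e5 : (x - a.val) * (b.val - x) = (x - c.val) * (d.val - x) := by
        have f1 : x - a.val = ((b.val : ℝ) - a.val) * t := by rw [hx]; ring
        have f2 : (b.val : ℝ) - x = ((b.val : ℝ) - a.val) * (1 - t) := by rw [hx]; ring
        have f3 : x - c.val = ((d.val : ℝ) - c.val) * t' := by rw [e1]; ring
        have f4 : (d.val : ℝ) - x = ((d.val : ℝ) - c.val) * (1 - t') := by rw [e1]; ring
        rw [f1, f2, f3, f4]
        exact e4
      -- both edges in the same noncrossing graph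
      have hsame : ∃ U : SimpleGraph (Fin n), NC U ∧ U.Adj a b ∧ U.Adj c d := by
        by_cases h3 : S.Adj a b
        · have h4 : S.Adj c d := by
            by_contra h4
            unfold sg at hs
            rw [if_pos h3, if_neg h4] at hs
            norm_num at hs
          exact ⟨S, hS, h3, h4⟩
        · have h4 : ¬ S.Adj c d := by
            intro h4
            unfold sg at hs
            rw [if_neg h3, if_pos h4] at hs
            norm_num at hs
          exact ⟨T, hT, h1.resolve_left h3, h2.resolve_left h4⟩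
      obtain ⟨U, hU, hUab, hUcd⟩ := hsame
      have j1 : (a.val : ℝ) < d.val := i1.trans i4
      have j2 : (c.val : ℝ) < b.val := i3.trans i2
      have j1' : a < d := by exact_mod_cast j1
      have j2' : c < b := by exact_mod_cast j2
      have n1 : ¬ (a < c ∧ b < d) := fun h => hU a c b d h.1 j2' h.2 hUab hUcd
      have n2 : ¬ (c < a ∧ d < b) := fun h => hU c a d b h.1 j1' h.2 hUcd hUab
      refine arcs_ne i1 i2 i3 i4 ?_ ?_ e5
      · rcases hne with h | h
        · exact Or.inl (fun h' => h (hval _ _ h'))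
        · exact Or.inr (fun h' => h (hval _ _ h'))
      · have : (a ≤ c ∧ d ≤ b) ∨ (c ≤ a ∧ b ≤ d) := by
          rw [Fin.lt_def, Fin.lt_def] at n1 n2
          rw [Fin.le_def, Fin.le_def, Fin.le_def, Fin.le_def]
          omega
        rcases this with ⟨h, h'⟩ | ⟨h, h'⟩
        · exact Or.inl ⟨by exact_mod_cast h, by exact_mod_cast h'⟩
        · exact Or.inr ⟨by exact_mod_cast h, by exact_mod_cast h'⟩
    have flip : ∀ t ∈ Set.Ioo (0 : ℝ) 1, 1 - t ∈ Set.Ioo (0 : ℝ) 1 := fun t ht =>
      ⟨by linarith [ht.2], by linarith [ht.1]⟩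
    intro u v u' v' h1 h2 hne t ht t' ht'
    have hne' : ¬ (u = u' ∧ v = v') := fun h => hne (by rw [h.1, h.2])
    have hne'' : ¬ (u = v' ∧ v = u') := fun h => hne (by rw [h.1, h.2, Sym2.eq_swap])
    rcases lt_or_gt_of_ne h1.ne with l1 | l1 <;> rcases lt_or_gt_of_ne h2.ne with l2 | l2
    · exact key u v u' v' l1 l2 h1 h2 (by tauto) t ht t' ht'
    · rw [arc_symm S u' v']
      exact key u v v' u' l1 l2 h1 h2.symm (by tauto) t ht _ (flip t' ht')
    · rw [arc_symm S u v]
      exact key v u u' v' l1 l2 h1.symm h2 (by tauto) _ (flip t ht) t' ht'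
    · rw [arc_symm S u v, arc_symm S u' v']
      exact key v u v' u' l1 l2 h1.symm h2.symm (by tauto) _ (flip t ht) _ (flip t' ht')

/-- comparison of the average with the lower bound of the strong form of the conjecture -/
theorem strong_cmp (q : ℝ) (h4 : 4 ≤ q) (h5 : q ≤ 5) (n : ℕ) (hn : 4 ≤ n) :
    (q - 2) * (q - 3) ^ (n - 1) ≤ ((q - 2) ^ 2 / (q - 1)) ^ n := by
  have hq1 : 0 < q - 1 := by linarith
  have ht : q - 3 ≤ (q - 2) ^ 2 / (q - 1) := by
    rw [le_div_iff₀ hq1]
    nlinarith
  obtain ⟨m, rfl⟩ : ∃ m, n = m + 4 := ⟨n - 4, by omega⟩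
  have hb : (q - 2) * (q - 3) ^ 3 ≤ ((q - 2) ^ 2 / (q - 1)) ^ 4 := by
    rw [div_pow, le_div_iff₀ (by positivity)]
    obtain ⟨x, hx⟩ : ∃ x, x = q - 2 := ⟨_, rfl⟩
    have hx2 : 2 ≤ x := by linarith
    have hx3 : x ≤ 3 := by linarith
    have e1 : q - 3 = x - 1 := by linarith
    have e2 : q - 1 = x + 1 := by linarith
    rw [e1, e2, ← hx]
    have h6 : (x - 1) ^ 3 * (x + 1) ^ 4 ≤ x ^ 7 := by
      have k1 : x ^ 7 - (x - 1) ^ 3 * (x + 1) ^ 4 =
          x ^ 5 * (3 - x) + 3 * x ^ 2 * (x ^ 2 - x - 1) + (x + 1) := by ring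
      have k2 : 0 ≤ x ^ 5 * (3 - x) := mul_nonneg (by positivity) (by linarith)
      have k3 : 0 ≤ x ^ 2 - x - 1 := by nlinarith
      have k4 : 0 ≤ 3 * x ^ 2 * (x ^ 2 - x - 1) := mul_nonneg (by positivity) k3
      linarith
    calc x * (x - 1) ^ 3 * (x + 1) ^ 4 = x * ((x - 1) ^ 3 * (x + 1) ^ 4) := by ring
      _ ≤ x * x ^ 7 := mul_le_mul_of_nonneg_left h6 (by linarith)
      _ = (x ^ 2) ^ 4 := by ring
  have e : m + 4 - 1 = m + 3 := by omega
  rw [e, pow_add, pow_add]
  have hp : (q - 3) ^ m ≤ ((q - 2) ^ 2 / (q - 1)) ^ m := pow_le_pow_left₀ (by linarith) ht m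
  have h7 : 0 ≤ (q - 2) * (q - 3) ^ 3 := by
    have : 0 ≤ q - 3 := by linarith
    have : 0 ≤ q - 2 := by linarith
    positivity
  calc (q - 2) * ((q - 3) ^ m * (q - 3) ^ 3) = (q - 3) ^ m * ((q - 2) * (q - 3) ^ 3) := by ring
    _ ≤ ((q - 2) ^ 2 / (q - 1)) ^ m * ((q - 2) ^ 2 / (q - 1)) ^ 4 :=
      mul_le_mul hp hb h7 (by positivity)

end Pool.Agent.Run7.h764.BLA
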