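import Pool.Agent.Run7.h764.BLA.Nc

/-!
Chromatic polynomials of triangulated polygons and of paths.
-/

set_option autoImplicit false
set_option linter.unusedSectionVars false

namespace Pool.Agent.Run7.h764.BLA

open Polynomial Pool.Agent.H207R2.BL

/-- a vertex whose neighbours form a clique -/
theorem chr_simplicial {V : Type} [Finite V] (G : SimpleGraph V) (b : V)
    (S : Finset {x : V // x ≠ b}) (hS : ∀ x : {x : V // x ≠ b}, G.Adj b x.1 ↔ x ∈ S)
    (hcl : ∀ x ∈ S, ∀ y ∈ S, x ≠ y → G.Adj x.1 y.1) :
    chr G = (X - C (S.card : ℝ)) * chr (G.comap (Subtype.val : {x : V // x ≠ b} → V)) := by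
  classical
  have : Fintype V := Fintype.ofFinite V
  refine (eq_chr (p := (X - C (S.card : ℝ)) *
    chr (G.comap (Subtype.val : {x : V // x ≠ b} → V))) ?_).symm
  intro k
  rw [Polynomial.eval_mul, Polynomial.eval_sub, Polynomial.eval_X, Polynomial.eval_C,
    chr_spec _ k, card_colorings, card_colorings]
  have h0 : Nat.card {g : V → Fin k // Proper G g} =
      Nat.card {p : ({x : V // x ≠ b} → Fin k) × Fin k //
        Proper (G.comap Subtype.val) p.1 ∧ p.2 ∉ S.image p.1} := by
    apply Nat.card_congr
    refine
      { toFun := fun g => ⟨(fun x => g.1 x.1, g.1 b), fun a b h => g.2 _ _ h, ?_⟩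
        invFun := fun s => ⟨fun x => if hx : x = b then s.1.2 else s.1.1 ⟨x, hx⟩, ?_⟩
        left_inv := ?_
        right_inv := ?_ }
    · rw [Finset.mem_image]
      rintro ⟨x, hx, hxb⟩
      exact g.2 b x.1 ((hS x).2 hx) hxb.symm
    · have hs := s.2.2
      intro x y hxy
      by_cases hx : x = b
      · have hy : y ≠ b := fun h => hxy.ne (hx.trans h.symm)
        simp only [dif_pos hx, dif_neg hy]
        intro h
        apply hs
        rw [Finset.mem_image]
        refine ⟨⟨y, hy⟩, (hS ⟨y, hy⟩).1 (hx ▸ hxy), h.symm⟩
      · by_cases hy : y = b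
        · simp only [dif_pos hy, dif_neg hx]
          intro h
          apply hs
          rw [Finset.mem_image]
          refine ⟨⟨x, hx⟩, (hS ⟨x, hx⟩).1 (hy ▸ hxy.symm), h⟩
        · simp only [dif_neg hx, dif_neg hy]
          exact s.2.1 _ _ hxy
    · intro g
      apply Subtype.ext
      funext x
      by_cases hx : x = b
      · subst hx
        simp
      · simp [hx]
    · intro s
      apply Subtype.ext
      refine Prod.ext ?_ (by simp)
      funext y
      simp [y.2]
  have h1 : Nat.card {g : V → Fin k // Proper G g} =
      Nat.card (Σ h : {g : {x : V // x ≠ b} → Fin k // Proper (G.comap Subtype.val) g},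
        {x : Fin k // x ∉ S.image h.1}) := by
    rw [h0]
    apply Nat.card_congr
    exact
      { toFun := fun p => ⟨⟨p.1.1, p.2.1⟩, ⟨p.1.2, p.2.2⟩⟩
        invFun := fun s => ⟨(s.1.1, s.2.1), s.1.2, s.2.2⟩
        left_inv := fun p => rfl
        right_inv := fun s => rfl }
  rw [h1, Nat.card_sigma, Finset.sum_congr rfl (g := fun _ => k - S.card)]
  · rw [Finset.sum_const, Finset.card_univ, ← Nat.card_eq_fintype_card, smul_eq_mul]
    push_cast
    by_cases hk : S.card ≤ k
    · rw [Nat.cast_sub hk]
      ring
    · have h2 : IsEmpty {g : {x : V // x ≠ b} → Fin k // Proper (G.comap Subtype.val) g} := by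
        refine ⟨fun g => hk ?_⟩
        have h3 : (S.image g.1).card = S.card := by
          apply Finset.card_image_of_injOn
          intro x hx y hy hxy
          by_contra hne
          exact g.2 x y (hcl x hx y hy hne) hxy
        rw [← h3]
        exact (Finset.card_le_univ _).trans_eq (Fintype.card_fin k)
      rw [Nat.card_of_isEmpty]
      simp
  · intro h _
    have h3 : (S.image h.1).card = S.card := by
      apply Finset.card_image_of_injOn
      intro x hx y hy hxy
      by_contra hne
      exact h.2 x y (hcl x hx y hy hne) hxy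
    rw [Nat.card_eq_fintype_card, Fintype.card_subtype, ← h3]
    have h4 : Finset.univ.filter (fun x : Fin k => x ∉ S.image h.1) = (S.image h.1)ᶜ := by
      ext x
      simp only [Finset.mem_filter, Finset.mem_univ, true_and, Finset.mem_compl]
    rw [h4, Finset.card_compl, Fintype.card_fin]

/-- triangulated polygon, the order being given by `r` -/
structure Tri {V : Type} (r : V → ℕ) (G : SimpleGraph V) : Prop where
  inj : Function.Injective r
  nc : NCr r G
  tri : ∀ a c b, G.Adj a c → r a < r b → r b < r c →
    ∃ b, r a < r b ∧ r b < r c ∧ G.Adj a b ∧ G.Adj b c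
  side : ∀ a c, a ≠ c → (∀ b, r a ≤ r b) → (∀ b, r b ≤ r c) → G.Adj a c

theorem exists_max {V : Type} [Finite V] (r : V → ℕ) (p : V → Prop) (h : ∃ v, p v) :
    ∃ v, p v ∧ ∀ w, p w → r w ≤ r v := by
  classical
  obtain ⟨v, hv, h1⟩ := Set.exists_max_image {v | p v} r (Set.toFinite _) h
  exact ⟨v, hv, h1⟩

theorem tri_val {V : Type} [Finite V] (r : V → ℕ) (G : SimpleGraph V) (hG : Tri r G) (n : ℕ)
    (hn : Nat.card V = n + 2) : chr G = X * (X - 1) * (X - 2) ^ n := by
  classical
  induction n generalizing V with
  | zero =>
    -- two vertices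
    have : Fintype V := Fintype.ofFinite V
    have hne : Nonempty V := by
      by_contra h
      rw [not_nonempty_iff] at h
      rw [Nat.card_of_isEmpty] at hn
      omega
    obtain ⟨a, _, ha⟩ := exists_min r (fun _ : V => True) ⟨Classical.arbitrary V, trivial⟩
    obtain ⟨c, _, hc⟩ := exists_max r (fun _ : V => True) ⟨Classical.arbitrary V, trivial⟩
    have hac : a ≠ c := by
      rintro rfl
      have hs : Subsingleton V := ⟨fun x y => hG.inj (by
        have := ha x trivial
        have := ha y trivial
        have := hc x trivial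
        have := hc y trivial
        omega)⟩
      have h1 : Nat.card V ≤ 1 := Finite.card_le_one_iff_subsingleton.2 hs
      omega
    have hadj := hG.side a c hac (fun b => ha b trivial) (fun b => hc b trivial)
    have hcV := card_sub' c
    have hsub : Subsingleton {x : V // x ≠ c} := by
      apply Finite.card_le_one_iff_subsingleton.1
      omega
    have h1 := chr_simplicial G c {⟨a, hac⟩} (by
      intro x
      have hx : x = ⟨a, hac⟩ := Subsingleton.elim _ _
      subst hx
      simp [hadj.symm]) (by
      intro x _ y _ hxy
      exact absurd (Subsingleton.elim x y) hxy)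
    have h2 := chr_simplicial (G.comap (Subtype.val : {x : V // x ≠ c} → V)) ⟨a, hac⟩ ∅ (by
      intro x
      exact absurd (Subsingleton.elim _ _) x.2) (by simp)
    have hem : IsEmpty {x : {x : V // x ≠ c} // x ≠ ⟨a, hac⟩} :=
      ⟨fun x => x.2 (Subsingleton.elim _ _)⟩
    rw [h1, h2, chr_empty']
    simp
    ring
  | succ n ih =>
    have : Fintype V := Fintype.ofFinite V
    have hne : Nonempty V := by
      by_contra h
      rw [not_nonempty_iff] at h
      rw [Nat.card_of_isEmpty] at hn
      omega
    obtain ⟨a0, _, ha0⟩ := exists_min r (fun _ : V => True) ⟨Classical.arbitrary V, trivial⟩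
    obtain ⟨c0, _, hc0⟩ := exists_max r (fun _ : V => True) ⟨Classical.arbitrary V, trivial⟩
    have hb0 : ∃ b0, b0 ≠ a0 ∧ b0 ≠ c0 := by
      by_contra hcon
      push Not at hcon
      have h1 : (Set.univ : Set V) ⊆ {a0, c0} := by
        intro x _
        by_cases h : x = a0
        · exact Or.inl h
        · exact Or.inr (hcon x h)
      have h2 := Set.ncard_le_ncard h1 (Set.toFinite _)
      rw [Set.ncard_univ] at h2
      have h3 := (h2.trans (Set.ncard_insert_le _ _))
      rw [Set.ncard_singleton] at h3
      omega
    obtain ⟨b0, hb1, hb2⟩ := hb0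
    have hab0 : r a0 < r b0 := lt_of_le_of_ne (ha0 b0 trivial) (fun h => hb1 (hG.inj h).symm)
    have hbc0 : r b0 < r c0 := lt_of_le_of_ne (hc0 b0 trivial) (fun h => hb2 (hG.inj h))
    have hadj0 : G.Adj a0 c0 := hG.side a0 c0 (by rintro rfl; omega) (fun b => ha0 b trivial)
      (fun b => hc0 b trivial)
    obtain ⟨a, c, hac, ⟨b', hb'⟩, hmin⟩ := min_edge r G ⟨a0, c0, b0, hadj0, hab0, hbc0⟩
    obtain ⟨b, hab, hbc, hAab, hAbc⟩ := hG.tri a c b' hac hb'.1 hb'.2
    have hno1 : ∀ z, ¬ (r a < r z ∧ r z < r b) := by
      rintro z ⟨h1, h2⟩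
      have := hmin a b z hAab h1 h2
      omega
    have hno2 : ∀ z, ¬ (r b < r z ∧ r z < r c) := by
      rintro z ⟨h1, h2⟩
      have := hmin b c z hAbc h1 h2
      omega
    have hN : ∀ y, G.Adj b y → y = a ∨ y = c := by
      intro y hy
      by_contra hcon
      push Not at hcon
      have h1 : ¬ (r y < r a) := fun h => hG.nc y a b c h hab hbc hy.symm hac
      have h2 : r y ≠ r a := fun h => hcon.1 (hG.inj h)
      have h3 : r y ≠ r b := fun h => hy.ne (hG.inj h).symm
      have h4 : ¬ (r c < r y) := fun h => hG.nc a b c y hab hbc h hac hy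
      have h5 := hno1 y
      have h6 := hno2 y
      have h7 : r y ≠ r c := fun h => hcon.2 (hG.inj h)
      omega
    have hane : a ≠ b := by rintro rfl; omega
    have hcne : c ≠ b := by rintro rfl; omega
    have hacne : a ≠ c := hac.ne
    have hcard : ({⟨a, hane⟩, ⟨c, hcne⟩} : Finset {x : V // x ≠ b}).card = 2 := by
      rw [Finset.card_pair]
      intro h
      exact hacne (congrArg Subtype.val h)
    have h1 := chr_simplicial G b {⟨a, hane⟩, ⟨c, hcne⟩} (by
      intro x
      rw [Finset.mem_insert, Finset.mem_singleton]
      constructor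
      · intro h
        rcases hN x.1 h with h | h
        · exact Or.inl (Subtype.ext h)
        · exact Or.inr (Subtype.ext h)
      · rintro (rfl | rfl)
        · exact hAab.symm
        · exact hAbc) (by
      intro x hx y hy hxy
      rw [Finset.mem_insert, Finset.mem_singleton] at hx hy
      rcases hx with rfl | rfl <;> rcases hy with rfl | rfl
      · exact absurd rfl hxy
      · exact hac
      · exact hac.symm
      · exact absurd rfl hxy)
    have hT : Tri (fun x : {x : V // x ≠ b} => r x.1)
        (G.comap (Subtype.val : {x : V // x ≠ b} → V)) := by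
      refine ⟨hG.inj.comp Subtype.val_injective,
        fun a b c d h1 h2 h3 h4 h5 => hG.nc a.1 b.1 c.1 d.1 h1 h2 h3 h4 h5, ?_, ?_⟩
      · intro x y z hxy hxz hzy
        obtain ⟨w, hw1, hw2, hw3, hw4⟩ := hG.tri x.1 y.1 z.1 hxy hxz hzy
        by_cases hwb : w = b
        · exfalso
          subst hwb
          have hzw : r z.1 ≠ r w := fun h => z.2 (hG.inj h)
          change r x.1 < r z.1 at hxz
          change r z.1 < r y.1 at hzy
          rcases hN _ hw3.symm with h | h
          · rcases hN _ hw4 with h' | h'
            · rw [h'] at hw2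
              omega
            · rw [h] at hxz
              rw [h'] at hzy
              have h8 := hno1 z.1
              have h9 := hno2 z.1
              omega
          · rw [h] at hw1
            omega
        · exact ⟨⟨w, hwb⟩, hw1, hw2, hw3, hw4⟩
      · intro x y hxy hx hy
        apply hG.side
        · exact fun h => hxy (Subtype.ext h)
        · intro z
          by_cases hz : z = b
          · rw [hz]
            exact (hx ⟨a, hane⟩).trans hab.le
          · exact hx ⟨z, hz⟩
        · intro z
          by_cases hz : z = b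
          · rw [hz]
            exact hbc.le.trans (hy ⟨c, hcne⟩)
          · exact hy ⟨z, hz⟩
    have hcV := card_sub' b
    have h2 := ih _ _ hT (by omega)
    rw [h1, h2, hcard]
    have : (C (((2 : ℕ) : ℝ)) : ℝ[X]) = 2 := by
      rw [Nat.cast_ofNat]
      exact map_ofNat C 2
    rw [this]
    ring

/-- path, the order being given by `r` -/
structure Pth {V : Type} (r : V → ℕ) (G : SimpleGraph V) : Prop where
  inj : Function.Injective r
  adj : ∀ a b, r a < r b → (G.Adj a b ↔ ∀ c, ¬ (r a < r c ∧ r c < r b))

theorem pth_val {V : Type} [Finite V] (r : V → ℕ) (G : SimpleGraph V) (hG : Pth r G) (n : ℕ)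
    (hn : Nat.card V = n + 1) : chr G = X * (X - 1) ^ n := by
  classical
  induction n generalizing V with
  | zero =>
    have hs : Subsingleton V := by
      apply Finite.card_le_one_iff_subsingleton.1
      omega
    have hne : Nonempty V := by
      by_contra h
      rw [not_nonempty_iff] at h
      rw [Nat.card_of_isEmpty] at hn
      omega
    let a : V := Classical.arbitrary V
    have h2 := chr_simplicial G a ∅ (by
      intro x
      exact absurd (Subsingleton.elim _ _) x.2) (by simp)
    have hem : IsEmpty {x : V // x ≠ a} := ⟨fun x => x.2 (Subsingleton.elim _ _)⟩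
    rw [h2, chr_empty']
    simp
  | succ n ih =>
    have : Fintype V := Fintype.ofFinite V
    have hne : Nonempty V := by
      by_contra h
      rw [not_nonempty_iff] at h
      rw [Nat.card_of_isEmpty] at hn
      omega
    obtain ⟨c, _, hc⟩ := exists_max r (fun _ : V => True) ⟨Classical.arbitrary V, trivial⟩
    have hcV := card_sub' c
    have hne' : Nonempty {x : V // x ≠ c} := by
      by_contra h
      rw [not_nonempty_iff] at h
      have h1 : Nat.card {x : V // x ≠ c} = 0 := Nat.card_of_isEmpty
      omega
    obtain ⟨a, _, ha⟩ := exists_max (fun x : {x : V // x ≠ c} => r x.1)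
      (fun _ : {x : V // x ≠ c} => True) ⟨Classical.arbitrary _, trivial⟩
    have hlt : ∀ x : {x : V // x ≠ c}, r x.1 < r c := fun x =>
      lt_of_le_of_ne (hc x.1 trivial) (fun h => x.2 (hG.inj h))
    have h1 := chr_simplicial G c {a} (by
      intro x
      rw [Finset.mem_singleton, SimpleGraph.adj_comm, hG.adj x.1 c (hlt x)]
      constructor
      · intro h
        apply Subtype.ext
        apply hG.inj
        have h2 := h a.1
        have h3 : r x.1 ≤ r a.1 := ha x trivial
        have h4 := hlt a
        have h5 := hlt x
        omega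
      · rintro rfl y ⟨hy1, hy2⟩
        have hyc : y ≠ c := by rintro rfl; omega
        have h3 : r y ≤ r x.1 := ha ⟨y, hyc⟩ trivial
        omega) (by
      intro x hx y hy hxy
      rw [Finset.mem_singleton] at hx hy
      exact absurd (hx.trans hy.symm) hxy)
    have hP : Pth (fun x : {x : V // x ≠ c} => r x.1)
        (G.comap (Subtype.val : {x : V // x ≠ c} → V)) := by
      refine ⟨hG.inj.comp Subtype.val_injective, ?_⟩
      intro x y hxy
      rw [SimpleGraph.comap_adj, hG.adj x.1 y.1 hxy]
      constructor
      · intro h z hz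
        exact h z.1 hz
      · intro h z hz
        have hzc : z ≠ c := by
          rintro rfl
          have := hlt y
          omega
        exact h ⟨z, hzc⟩ hz
    have h2 := ih _ _ hP (by omega)
    rw [h1, h2]
    simp
    ring

end Pool.Agent.Run7.h764.BLA
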