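import Pool.Agent.H207R2.BL.Plane
import Pool.Agent.Run7.h764.BLA.Simp

/-!
Consequences of reflection positivity: families of halves compared with one fixed half.
-/

set_option autoImplicit false
set_option linter.unusedSectionVars false

namespace Pool.Agent.Run7.h764.BLA

open Polynomial Pool.Agent.H207R2.BL

theorem glue_comm_chrom {V W : Type} [Finite V] [Finite W] {n : ℕ} (N : SimpleGraph (V ⊕ Fin n))
    (M : SimpleGraph (W ⊕ Fin n)) (p : ℝ[X]) (hp : IsChrom (glue N M) p) :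
    IsChrom (glue M N) p := by
  intro k
  rw [hp k]
  have : Fintype V := Fintype.ofFinite V
  have : Fintype W := Fintype.ofFinite W
  classical
  rw [card_glue, card_glue]
  exact Finset.sum_congr rfl (fun c _ => mul_comm _ _)

/-- reflection positivity, with a reference half -/
theorem gen {n : ℕ} {J : Type} [Fintype J] (V : J → Type) [hV : ∀ i, Finite (V i)] (W : Type)
    [hW : Finite W] (N : ∀ i, SimpleGraph (V i ⊕ Fin n)) (hN : ∀ i, Crossless (N i))
    (K : SimpleGraph (W ⊕ Fin n)) (hK : Crossless K)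
    (p : J → J → ℝ[X]) (hp : ∀ i j, IsChrom (glue (N i) (N j)) (p i j))
    (r : J → ℝ[X]) (hr : ∀ i, IsChrom (glue (N i) K) (r i))
    (s : ℝ[X]) (hs : IsChrom (glue K K) s)
    (q : ℝ) (hq : 4 ≤ q) (a : J → ℝ) :
    (∑ i, a i * (r i).eval q) ^ 2 ≤ s.eval q * ∑ i, ∑ j, a i * a j * (p i j).eval q := by
  classical
  let VV : Option J → Type := fun o => match o with
    | none => W
    | some i => V i
  have hfin : ∀ o, Finite (VV o) := by
    intro o
    cases o
    · exact hW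
    · exact hV _
  let NN : ∀ o, SimpleGraph (VV o ⊕ Fin n) := fun o => match o with
    | none => K
    | some i => N i
  have hNN : ∀ o, Crossless (NN o) := by
    intro o
    cases o
    · exact hK
    · exact hN _
  let P : Option J → Option J → ℝ[X] := fun o o' => match o, o' with
    | none, none => s
    | none, some j => r j
    | some i, none => r i
    | some i, some j => p i j
  have hP : ∀ o o', IsChrom (glue (NN o) (NN o')) (P o o') := by
    intro o o'
    cases o <;> cases o'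
    · exact hs
    · exact glue_comm_chrom _ _ _ (hr _)
    · exact hr _
    · exact hp _ _
  have hd : discrim (s.eval q) (2 * ∑ i, a i * (r i).eval q)
      (∑ i, ∑ j, a i * a j * (p i j).eval q) ≤ 0 := by
    apply discrim_le_zero
    intro x
    have h := psd VV NN hNN P hP q hq (fun o => match o with
      | none => x
      | some i => a i)
    simp only [Fintype.sum_option, P] at h
    have e1 : ∑ j, x * a j * (r j).eval q = x * ∑ j, a j * (r j).eval q := by
      rw [Finset.mul_sum]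
      exact Finset.sum_congr rfl (fun _ _ => by ring)
    have e2 : ∑ i, (a i * x * (r i).eval q + ∑ j, a i * a j * (p i j).eval q) =
        x * (∑ j, a j * (r j).eval q) + ∑ i, ∑ j, a i * a j * (p i j).eval q := by
      rw [Finset.sum_add_distrib, Finset.mul_sum]
      congr 1
      exact Finset.sum_congr rfl (fun _ _ => by ring)
    rw [e1, e2] at h
    linarith
  unfold discrim at hd
  linarith

/-- no two edges cross -/
def NC {n : ℕ} (T : SimpleGraph (Fin n)) : Prop :=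
  ∀ a b c d : Fin n, a < b → b < c → c < d → T.Adj a c → ¬ T.Adj b d

theorem NC.out {n : ℕ} {T : SimpleGraph (Fin n)} (h : NC T) : Out (Fin n) T :=
  ⟨Fin.val, Fin.val_injective, fun a b c d h1 h2 h3 h4 h5 => h a b c d h1 h2 h3 h4 h5⟩

/-- the position of a vertex -/
def pos {n : ℕ} : Empty ⊕ Fin n → Fin n := Sum.elim Empty.elim id

theorem inr_pos {n : ℕ} (v : Empty ⊕ Fin n) : Sum.inr (pos v) = v := by
  rcases v with e | v
  · exact e.elim
  · rfl

/-- a noncrossing graph as a half -/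
def hf {n : ℕ} (T : SimpleGraph (Fin n)) : SimpleGraph (Empty ⊕ Fin n) := T.comap pos

theorem hf_crossless {n : ℕ} (T : SimpleGraph (Fin n)) (hT : NC T) : Crossless (hf T) := by
  intro i j k l hij hjk hkl p p'
  by_contra hcon
  push Not at hcon
  have hne : ∀ v w, v ∈ p.support → w ∈ p'.support → pos v ≠ pos w := by
    intro v w hv hw h
    have : v = w := by rw [← inr_pos v, ← inr_pos w, h]
    exact hcon v hv (this ▸ hw)
  obtain ⟨d, hd, hd1, hd2⟩ := p.exists_boundary_dart {v | ¬ (j < pos v ∧ pos v < l)}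
    (by
      intro h
      exact absurd (h.1.trans hij) (lt_irrefl _))
    (by
      intro h
      exact h ⟨hjk, hkl⟩)
  have hx := SimpleGraph.Walk.dart_fst_mem_support_of_mem_darts p hd
  have hy := SimpleGraph.Walk.dart_snd_mem_support_of_mem_darts p hd
  have hxy : T.Adj (pos d.fst) (pos d.snd) := d.adj
  have hd2' : j < pos d.snd ∧ pos d.snd < l := not_not.1 hd2
  have hd1' : ¬ (j < pos d.fst ∧ pos d.fst < l) := hd1
  have hxj : pos d.fst ≠ j := hne _ _ hx (SimpleGraph.Walk.start_mem_support p')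
  have hxl : pos d.fst ≠ l := hne _ _ hx (SimpleGraph.Walk.end_mem_support p')
  rcases lt_or_gt_of_ne hxj with hlt | hgt
  · obtain ⟨e, he, he1, he2⟩ := p'.exists_boundary_dart
      {v | pos d.fst < pos v ∧ pos v < pos d.snd} ⟨hlt, hd2'.1⟩
      (fun h => absurd (h.2.trans hd2'.2) (lt_irrefl _))
    have hz := SimpleGraph.Walk.dart_fst_mem_support_of_mem_darts p' he
    have hw := SimpleGraph.Walk.dart_snd_mem_support_of_mem_darts p' he
    have hzw : T.Adj (pos e.fst) (pos e.snd) := e.adj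
    have h1 : pos d.fst ≠ pos e.snd := hne _ _ hx hw
    have h2 : pos d.snd ≠ pos e.snd := hne _ _ hy hw
    rcases lt_or_gt_of_ne h1 with h3 | h3
    · rcases lt_or_gt_of_ne h2 with h4 | h4
      · exact hT _ _ _ _ he1.1 he1.2 h4 hxy hzw
      · exact he2 ⟨h3, h4⟩
    · exact hT _ _ _ _ h3 he1.1 he1.2 hzw.symm hxy
  · have hlx : l < pos d.fst := by
      rcases lt_or_gt_of_ne hxl with h | h
      · exact absurd ⟨hgt, h⟩ hd1'
      · exact h
    obtain ⟨e, he, he1, he2⟩ := p'.exists_boundary_dart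
      {v | ¬ (pos d.snd < pos v ∧ pos v < pos d.fst)}
      (fun h => absurd (h.1.trans hd2'.1) (lt_irrefl _))
      (fun h => h ⟨hd2'.2, hlx⟩)
    have hz := SimpleGraph.Walk.dart_fst_mem_support_of_mem_darts p' he
    have hw := SimpleGraph.Walk.dart_snd_mem_support_of_mem_darts p' he
    have hzw : T.Adj (pos e.fst) (pos e.snd) := e.adj
    have he2' : pos d.snd < pos e.snd ∧ pos e.snd < pos d.fst := not_not.1 he2
    have he1' : ¬ (pos d.snd < pos e.fst ∧ pos e.fst < pos d.fst) := he1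
    have h1 : pos d.fst ≠ pos e.fst := hne _ _ hx hz
    have h2 : pos d.snd ≠ pos e.fst := hne _ _ hy hz
    rcases lt_or_gt_of_ne h2 with h3 | h3
    · rcases lt_or_gt_of_ne h1 with h4 | h4
      · exact hT _ _ _ _ he2'.1 he2'.2 h4 hxy.symm hzw.symm
      · exact he1' ⟨h3, h4⟩
    · exact hT _ _ _ _ h3 he2'.1 he2'.2 hzw hxy.symm

/-- the union of two graphs on the boundary vertices -/
def isoG {n : ℕ} (S T : SimpleGraph (Fin n)) : (S ⊔ T) ≃g glue (hf S) (hf T) where
  toFun := Sum.inr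
  invFun := Sum.elim (fun x => x.elim Empty.elim Empty.elim) id
  left_inv := fun x => rfl
  right_inv := by
    rintro ((e | e) | i)
    · exact e.elim
    · exact e.elim
    · rfl
  map_rel_iff' := by
    intro a b
    constructor
    · rintro (⟨_, a', b', h, h1, h2⟩ | ⟨_, a', b', h, h1, h2⟩)
      · left
        rcases a' with e | a'
        · exact e.elim
        rcases b' with e | b'
        · exact e.elim
        have e1 : a' = a := Sum.inr_injective h1
        have e2 : b' = b := Sum.inr_injective h2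
        rw [← e1, ← e2]
        exact h
      · right
        rcases a' with e | a'
        · exact e.elim
        rcases b' with e | b'
        · exact e.elim
        have e1 : a' = a := Sum.inr_injective h1
        have e2 : b' = b := Sum.inr_injective h2
        rw [← e1, ← e2]
        exact h
    · rintro (h | h)
      · exact Or.inl ⟨Sum.inr_injective.ne h.ne, Sum.inr a, Sum.inr b, h, rfl, rfl⟩
      · exact Or.inr ⟨Sum.inr_injective.ne h.ne, Sum.inr a, Sum.inr b, h, rfl, rfl⟩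

/-- value of the chromatic polynomial -/
noncomputable def Pv {n : ℕ} (q : ℝ) (T : SimpleGraph (Fin n)) : ℝ := (chr T).eval q

theorem gen_nc {n : ℕ} {J : Type} [Fintype J] (T : J → SimpleGraph (Fin n)) (hT : ∀ i, NC (T i))
    (K : SimpleGraph (Fin n)) (hK : NC K) (q : ℝ) (hq : 4 ≤ q) (a : J → ℝ) :
    (∑ i, a i * Pv q (T i ⊔ K)) ^ 2 ≤ Pv q K * ∑ i, ∑ j, a i * a j * Pv q (T i ⊔ T j) := by
  have hs : IsChrom (glue (hf K) (hf K)) (chr K) := by
    have h := (chr_spec (K ⊔ K)).of_iso (isoG K K)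
    rwa [sup_idem] at h
  exact gen (fun _ : J => Empty) Empty (fun i => hf (T i)) (fun i => hf_crossless _ (hT i))
    (hf K) (hf_crossless _ hK) (fun i j => chr (T i ⊔ T j))
    (fun i j => (chr_spec _).of_iso (isoG _ _)) (fun i => chr (T i ⊔ K))
    (fun i => (chr_spec _).of_iso (isoG _ _)) (chr K) hs q hq a

theorem pt {n : ℕ} (S T : SimpleGraph (Fin n)) (hS : NC S) (hT : NC T) (q : ℝ) (hq : 4 ≤ q) :
    Pv q (S ⊔ T) ^ 2 ≤ Pv q S * Pv q T := by
  have h := gen_nc (fun _ : Unit => S) (fun _ => hS) T hT q hq (fun _ => 1)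
  simp only [Finset.univ_unique, Finset.sum_const, Finset.card_singleton, one_smul, one_mul,
    sup_idem] at h
  linarith

theorem Pv_lower {n : ℕ} (T : SimpleGraph (Fin (n + 2))) (hT : NC T) (q : ℝ) (hq : 4 ≤ q) :
    q * (q - 1) * (q - 2) ^ n ≤ Pv q T := by
  have h := out_lower q hq T hT.out
  rw [Nat.card_eq_fintype_card, Fintype.card_fin] at h
  exact h

/-- average, general reference graph -/
theorem avg {n : ℕ} (F : Finset (SimpleGraph (Fin (n + 2)))) (hF : ∀ T ∈ F, NC T)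
    (K : SimpleGraph (Fin (n + 2))) (hK : NC K) (hKF : ∀ T ∈ F, K ≤ T) (q : ℝ) (hq : 4 ≤ q) :
    ((F.card : ℝ) * (q * (q - 1) * (q - 2) ^ n)) ^ 2 ≤
      Pv q K * ∑ S ∈ F, ∑ T ∈ F, Pv q (S ⊔ T) := by
  classical
  have h := gen_nc (fun T : F => T.1) (fun T => hF T.1 T.2) K hK q hq (fun _ => 1)
  simp only [one_mul] at h
  have e1 : ∑ T : F, Pv q (T.1 ⊔ K) = ∑ T ∈ F, Pv q T := by
    rw [← Finset.sum_coe_sort F (fun T => Pv q T)]
    refine Finset.sum_congr rfl (fun T _ => ?_)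
    rw [sup_eq_left.2 (hKF T.1 T.2)]
  have e2 : ∑ S : F, ∑ T : F, Pv q (S.1 ⊔ T.1) = ∑ S ∈ F, ∑ T ∈ F, Pv q (S ⊔ T) := by
    rw [← Finset.sum_coe_sort F (fun S => ∑ T ∈ F, Pv q (S ⊔ T))]
    refine Finset.sum_congr rfl (fun S _ => ?_)
    rw [← Finset.sum_coe_sort F (fun T => Pv q (S.1 ⊔ T))]
  rw [e1, e2] at h
  refine le_trans ?_ h
  have h0 : 0 ≤ q * (q - 1) * (q - 2) ^ n := by
    have a1 : 0 ≤ q := by linarith
    have a2 : 0 ≤ q - 1 := by linarith
    have a3 : 0 ≤ q - 2 := by linarith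
    positivity
  apply pow_le_pow_left₀ (mul_nonneg (Nat.cast_nonneg _) h0)
  rw [← nsmul_eq_mul]
  exact Finset.card_nsmul_le_sum F _ _ (fun T hT => Pv_lower T (hF T hT) q hq)

/-- many pairs with positive value -/
theorem many {n : ℕ} (F : Finset (SimpleGraph (Fin (n + 2)))) (hF : ∀ T ∈ F, NC T)
    (K : SimpleGraph (Fin (n + 2))) (hK : NC K) (hKF : ∀ T ∈ F, K ≤ T) (q : ℝ) (hq : 4 ≤ q)
    (m : ℕ) (hm : m = Nat.card {x : SimpleGraph (Fin (n + 2)) × SimpleGraph (Fin (n + 2)) //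
      x.1 ∈ F ∧ x.2 ∈ F ∧ 0 < Pv q (x.1 ⊔ x.2)}) :
    (F.card : ℝ) ^ 2 * (q * (q - 1) * (q - 2) ^ n) ≤ Pv q K * m := by
  classical
  have hpos : ∀ T ∈ F, 0 < Pv q T := fun T hT => out_pos q hq T (hF T hT).out
  have hKpos : 0 < Pv q K := out_pos q hq K hK.out
  have h := gen_nc (fun T : F => T.1) (fun T => hF T.1 T.2) K hK q hq
    (fun T => (Real.sqrt (Pv q T.1))⁻¹)
  have e1 : ∑ T : F, (Real.sqrt (Pv q T.1))⁻¹ * Pv q (T.1 ⊔ K) =
      ∑ T ∈ F, Real.sqrt (Pv q T) := by
    rw [← Finset.sum_coe_sort F (fun T => Real.sqrt (Pv q T))]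
    refine Finset.sum_congr rfl (fun T _ => ?_)
    rw [sup_eq_left.2 (hKF T.1 T.2)]
    have h1 := hpos T.1 T.2
    have h2 : 0 < Real.sqrt (Pv q T.1) := Real.sqrt_pos.2 h1
    have h3 : Real.sqrt (Pv q T.1) * Real.sqrt (Pv q T.1) = Pv q T.1 :=
      Real.mul_self_sqrt h1.le
    field_simp
    linarith
  have e2 : ∑ S : F, ∑ T : F, (Real.sqrt (Pv q S.1))⁻¹ * (Real.sqrt (Pv q T.1))⁻¹ *
        Pv q (S.1 ⊔ T.1) =
      ∑ S ∈ F, ∑ T ∈ F, (Real.sqrt (Pv q S))⁻¹ * (Real.sqrt (Pv q T))⁻¹ * Pv q (S ⊔ T) := by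
    rw [← Finset.sum_coe_sort F (fun S => ∑ T ∈ F, (Real.sqrt (Pv q S))⁻¹ *
      (Real.sqrt (Pv q T))⁻¹ * Pv q (S ⊔ T))]
    refine Finset.sum_congr rfl (fun S _ => ?_)
    rw [← Finset.sum_coe_sort F (fun T => (Real.sqrt (Pv q S.1))⁻¹ *
      (Real.sqrt (Pv q T))⁻¹ * Pv q (S.1 ⊔ T))]
  rw [e1, e2] at h
  -- each summand is at most one, and nonpositive unless the value is positive
  have h2 : ∑ S ∈ F, ∑ T ∈ F, (Real.sqrt (Pv q S))⁻¹ * (Real.sqrt (Pv q T))⁻¹ * Pv q (S ⊔ T) ≤
      ∑ S ∈ F, ∑ T ∈ F, if 0 < Pv q (S ⊔ T) then (1 : ℝ) else 0 := by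
    refine Finset.sum_le_sum (fun S hS => Finset.sum_le_sum (fun T hT => ?_))
    have a1 : 0 < Real.sqrt (Pv q S) := Real.sqrt_pos.2 (hpos S hS)
    have a2 : 0 < Real.sqrt (Pv q T) := Real.sqrt_pos.2 (hpos T hT)
    have a3 : 0 < (Real.sqrt (Pv q S))⁻¹ * (Real.sqrt (Pv q T))⁻¹ := by positivity
    split_ifs with hc
    · have a4 := pt S T (hF S hS) (hF T hT) q hq
      have a5 : Pv q (S ⊔ T) ≤ Real.sqrt (Pv q S) * Real.sqrt (Pv q T) := by
        rw [← Real.sqrt_mul (hpos S hS).le]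
        exact Real.le_sqrt_of_sq_le a4
      calc (Real.sqrt (Pv q S))⁻¹ * (Real.sqrt (Pv q T))⁻¹ * Pv q (S ⊔ T)
          ≤ (Real.sqrt (Pv q S))⁻¹ * (Real.sqrt (Pv q T))⁻¹ *
            (Real.sqrt (Pv q S) * Real.sqrt (Pv q T)) := mul_le_mul_of_nonneg_left a5 a3.le
        _ = 1 := by field_simp
    · push Not at hc
      exact mul_nonpos_of_nonneg_of_nonpos a3.le hc
  have h3 : ∑ S ∈ F, ∑ T ∈ F, (if 0 < Pv q (S ⊔ T) then (1 : ℝ) else 0) = m := by
    rw [← Finset.sum_product', Finset.sum_boole, hm, Nat.card_eq_fintype_card,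
      Fintype.card_subtype]
    congr 2
    ext x
    simp only [Finset.mem_filter, Finset.mem_product, Finset.mem_univ, true_and]
    tauto
  have h4 : (∑ T ∈ F, Real.sqrt (Pv q T)) ^ 2 ≤ Pv q K * m :=
    h.trans (mul_le_mul_of_nonneg_left (h2.trans_eq h3) hKpos.le)
  refine le_trans ?_ h4
  have h0 : 0 ≤ q * (q - 1) * (q - 2) ^ n := by
    have a1 : 0 ≤ q := by linarith
    have a2 : 0 ≤ q - 1 := by linarith
    have a3 : 0 ≤ q - 2 := by linarith
    positivity
  have h5 : (F.card : ℝ) * Real.sqrt (q * (q - 1) * (q - 2) ^ n) ≤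
      ∑ T ∈ F, Real.sqrt (Pv q T) := by
    rw [← nsmul_eq_mul]
    exact Finset.card_nsmul_le_sum F _ _
      (fun T hT => Real.sqrt_le_sqrt (Pv_lower T (hF T hT) q hq))
  have h6 : ((F.card : ℝ) * Real.sqrt (q * (q - 1) * (q - 2) ^ n)) ^ 2 ≤
      (∑ T ∈ F, Real.sqrt (Pv q T)) ^ 2 :=
    pow_le_pow_left₀ (mul_nonneg (Nat.cast_nonneg _) (Real.sqrt_nonneg _)) h5 2
  rw [mul_pow, Real.sq_sqrt h0] at h6
  exact h6

end Pool.Agent.Run7.h764.BLA
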