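import Pool.Agent.Y865.RF.Exp

/-!
Noncrossing (outerplanar) graphs: a minor closed class; lower bound and value of the chromatic
polynomial.
-/

set_option autoImplicit false
set_option linter.unusedSectionVars false

namespace Pool.Agent.Run7.h764.BLA

open Polynomial Pool.Agent.H207R2.BL

/-- no two edges cross in the order given by `r` -/
def NCr {V : Type} (r : V → ℕ) (G : SimpleGraph V) : Prop :=
  ∀ a b c d, r a < r b → r b < r c → r c < r d → G.Adj a c → ¬ G.Adj b d

/-- outerplanar graphs -/
def Out (V : Type) (G : SimpleGraph V) : Prop :=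
  ∃ r : V → ℕ, Function.Injective r ∧ NCr r G

theorem out_closed : MinorClosed Out where
  edge := by
    rintro V G H h ⟨r, hr, hn⟩
    exact ⟨r, hr, fun a b c d h1 h2 h3 h4 h5 => hn a b c d h1 h2 h3 (h h4) (h h5)⟩
  vertex := by
    rintro V G v ⟨r, hr, hn⟩
    exact ⟨fun x => r x.1, hr.comp Subtype.val_injective,
      fun a b c d h1 h2 h3 h4 h5 => hn a.1 b.1 c.1 d.1 h1 h2 h3 h4 h5⟩
  contr := by
    rintro V G u v huv ⟨r, hr, hn⟩
    refine ⟨fun x => r x.1, hr.comp Subtype.val_injective, ?_⟩
    rintro ⟨a, ha⟩ ⟨b, hb⟩ ⟨c, hc⟩ ⟨d, hd⟩ h1 h2 h3 ⟨_, h4⟩ ⟨_, h5⟩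
    simp only at h1 h2 h3 h4 h5
    have na : r v ≠ r a := fun h => ha (hr h).symm
    have nb : r v ≠ r b := fun h => hb (hr h).symm
    have nc : r v ≠ r c := fun h => hc (hr h).symm
    have nd : r v ≠ r d := fun h => hd (hr h).symm
    rcases h4 with h4 | ⟨rfl, h4⟩ | ⟨rfl, h4⟩ <;> rcases h5 with h5 | ⟨e5, h5⟩ | ⟨e5, h5⟩
    · exact hn a b c d h1 h2 h3 h4 h5
    · subst e5
      have e1 : ¬ (r v < r a) := fun h => hn v a b c h h1 h2 huv.symm h4
      have e2 : ¬ (r a < r v ∧ r v < r c) := fun h => hn a v c d h.1 h.2 h3 h4 h5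
      have e3 : ¬ (r c < r v) := fun h => hn a b c v h1 h2 h h4 huv
      omega
    · subst e5
      have e1 : ¬ (r v < r a) := fun h => hn v a b c h h1 h2 h5 h4
      have e2 : ¬ (r a < r v ∧ r v < r c) := fun h => hn a v c d h.1 h.2 h3 h4 huv.symm
      have e3 : ¬ (r c < r v) := fun h => hn a b c v h1 h2 h h4 h5.symm
      omega
    · have e1 : ¬ (r v < r b) := fun h => hn v b c d h h2 h3 h4 h5
      have e2 : ¬ (r b < r v ∧ r v < r d) := fun h => hn a b v d h1 h.1 h.2 huv h5
      have e3 : ¬ (r d < r v) := fun h => hn b c d v h2 h3 h h5 h4.symm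
      omega
    · subst e5
      omega
    · subst e5
      omega
    · have e1 : ¬ (r v < r b) := fun h => hn v b c d h h2 h3 huv.symm h5
      have e2 : ¬ (r b < r v ∧ r v < r d) := fun h => hn a b v d h1 h.1 h.2 h4.symm h5
      have e3 : ¬ (r d < r v) := fun h => hn b c d v h2 h3 h h5 huv
      omega
    · subst e5
      omega
    · subst e5
      omega

/-- an ear: an edge `a c` over a vertex, of minimal length -/
theorem min_edge {V : Type} [Finite V] (r : V → ℕ) (G : SimpleGraph V)
    (h : ∃ a c b, G.Adj a c ∧ r a < r b ∧ r b < r c) :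
    ∃ a c, G.Adj a c ∧ (∃ b, r a < r b ∧ r b < r c) ∧
      ∀ x y z, G.Adj x y → r x < r z → r z < r y → r c - r a ≤ r y - r x := by
  classical
  let P : ℕ → Prop := fun m => ∃ a c, (G.Adj a c ∧ ∃ b, r a < r b ∧ r b < r c) ∧ r c - r a = m
  have hP : ∃ m, P m := by
    obtain ⟨a, c, b, h1, h2, h3⟩ := h
    exact ⟨_, a, c, ⟨h1, b, h2, h3⟩, rfl⟩
  obtain ⟨a, c, ⟨h1, h2⟩, h3⟩ := Nat.find_spec hP
  refine ⟨a, c, h1, h2, ?_⟩
  intro x y z hxy hxz hzy
  rw [h3]
  exact Nat.find_min' hP ⟨x, y, ⟨hxy, z, hxz, hzy⟩, rfl⟩

theorem exists_min {V : Type} [Finite V] (r : V → ℕ) (p : V → Prop) (h : ∃ v, p v) :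
    ∃ v, p v ∧ ∀ w, p w → r v ≤ r w := by
  classical
  have hP : ∃ m, ∃ v, p v ∧ r v = m := by
    obtain ⟨v, hv⟩ := h
    exact ⟨_, v, hv, rfl⟩
  obtain ⟨v, hv, h1⟩ := Nat.find_spec hP
  exact ⟨v, hv, fun w hw => h1 ▸ Nat.find_min' hP ⟨w, hw, rfl⟩⟩

theorem out_deg (V : Type) [Finite V] [Nonempty V] (G : SimpleGraph V) (hG : Out V G) :
    ∃ v, (G.neighborSet v).ncard ≤ 2 := by
  classical
  obtain ⟨r, hr, hn⟩ := hG
  by_cases h : ∃ a c b, G.Adj a c ∧ r a < r b ∧ r b < r c
  · obtain ⟨a, c, hac, hb, hmin⟩ := min_edge r G h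
    obtain ⟨b, ⟨hab, hbc⟩, hbmin⟩ := exists_min r (fun b => r a < r b ∧ r b < r c) hb
    have key : ∀ y, G.Adj b y → y = a ∨ (r b < r y ∧ ∀ z, ¬ (r b < r z ∧ r z < r y)) := by
      intro y hy
      by_cases hya : y = a
      · exact Or.inl hya
      · right
        have h1 : ¬ (r y < r a) := fun h => hn y a b c h hab hbc hy.symm hac
        have h2 : r y ≠ r a := fun h => hya (hr h)
        have h3 : r y ≠ r b := fun h => hy.ne (hr h).symm
        have h4 : ¬ (r c < r y) := fun h => hn a b c y hab hbc h hac hy
        have h5 : ¬ (r y < r b) := by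
          intro h
          have := hbmin y ⟨by omega, by omega⟩
          omega
        refine ⟨by omega, ?_⟩
        rintro z ⟨hz1, hz2⟩
        have := hmin b y z hy hz1 hz2
        omega
    refine ⟨b, ?_⟩
    by_cases hex : ∃ y, G.Adj b y ∧ y ≠ a
    · obtain ⟨y0, hy0, hy0a⟩ := hex
      have hk0 := (key y0 hy0).resolve_left hy0a
      have hsub : G.neighborSet b ⊆ {a, y0} := by
        intro y hy
        rcases key y hy with h | h
        · exact Or.inl h
        · right
          apply hr
          by_contra hne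
          rcases Nat.lt_or_gt_of_ne hne with h' | h'
          · exact hk0.2 y ⟨h.1, h'⟩
          · exact h.2 y0 ⟨hk0.1, h'⟩
      refine (Set.ncard_le_ncard hsub (Set.toFinite _)).trans ?_
      refine (Set.ncard_insert_le _ _).trans ?_
      rw [Set.ncard_singleton]
    · push Not at hex
      have hsub : G.neighborSet b ⊆ {a} := fun y hy => hex y hy
      have := (Set.ncard_le_ncard hsub (Set.toFinite _))
      rw [Set.ncard_singleton] at this
      omega
  · push Not at h
    obtain ⟨v, _, hv⟩ := exists_min r (fun _ : V => True) ⟨Classical.arbitrary V, trivial⟩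
    refine ⟨v, ?_⟩
    by_cases hex : ∃ y, G.Adj v y
    · obtain ⟨y0, hy0⟩ := hex
      have hsub : G.neighborSet v ⊆ {y0} := by
        intro y hy
        have hy' : G.Adj v y := hy
        apply hr
        have h1 : r v ≠ r y := fun h => hy'.ne (hr h)
        have h2 : r v ≠ r y0 := fun h => hy0.ne (hr h)
        have h3 := hv y trivial
        have h4 := hv y0 trivial
        by_contra hne
        rcases Nat.lt_or_gt_of_ne hne with h' | h'
        · have := h v y0 y hy0 (by omega)
          omega
        · have := h v y y0 hy' (by omega)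
          omega
      have := (Set.ncard_le_ncard hsub (Set.toFinite _))
      rw [Set.ncard_singleton] at this
      omega
    · push Not at hex
      have : G.neighborSet v = ∅ := by
        ext y
        simp [hex y]
      rw [this]
      simp

theorem out_pos (q : ℝ) (hq : 4 ≤ q) {V : Type} [Finite V] (G : SimpleGraph V) (hG : Out V G) :
    0 < (chr G).eval q :=
  minor_pos Out out_closed 2 out_deg q (by norm_num; linarith) G hG

/-- the lower bound -/
noncomputable def low (q : ℝ) : ℕ → ℝ
  | 0 => 1
  | 1 => q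
  | n + 2 => q * (q - 1) * (q - 2) ^ n

theorem chr_empty' {V : Type} [Finite V] [he : IsEmpty V] (G : SimpleGraph V) : chr G = 1 := by
  refine (eq_chr (p := (1 : ℝ[X])) ?_).symm
  intro k
  rw [card_colorings]
  have : Nat.card {g : V → Fin k // Proper G g} = 1 := by
    rw [Nat.card_eq_one_iff_unique]
    refine ⟨⟨fun a b => Subtype.ext (funext fun x => (he.false x).elim)⟩,
      ⟨fun x => (he.false x).elim, fun a => (he.false a).elim⟩⟩
  rw [this]
  simp

theorem card_sub' {V : Type} [Finite V] (v : V) : Nat.card {x : V // x ≠ v} + 1 = Nat.card V := by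
  classical
  have : Fintype V := Fintype.ofFinite V
  rw [Nat.card_eq_fintype_card, Nat.card_eq_fintype_card, Fintype.card_subtype_compl,
    Fintype.card_subtype_eq]
  have : 0 < Fintype.card V := Fintype.card_pos_iff.2 ⟨v⟩
  omega

theorem out_lower (q : ℝ) (hq : 4 ≤ q) {V : Type} [Finite V] (G : SimpleGraph V)
    (hG : Out V G) : low q (Nat.card V) ≤ (chr G).eval q := by
  classical
  induction hN : Nat.card V using Nat.strong_induction_on generalizing V with
  | _ N ih =>
    rcases isEmpty_or_nonempty V with he | hne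
    · have h0 : N = 0 := by rw [← hN]; simp
      rw [h0, chr_empty' G]
      simp [low]
    · obtain ⟨v, hv⟩ := out_deg V G hG
      have hc := card_sub' v
      set m := Nat.card {x : V // x ≠ v} with hm
      have hHC : Out _ (G.comap (Subtype.val : {x : V // x ≠ v} → V)) :=
        out_closed.vertex V G v hG
      have h1 := ih m (by omega) _ hHC hm.symm
      have h2 := out_pos q hq _ hHC
      obtain ⟨D, hD, hGD⟩ := Pool.Agent.Y865.RF.exp_at Out out_closed V G v hG
        (fun p => 0 ≤ p.eval q) (by simp) (fun a b ha hb => by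
          rw [Polynomial.eval_add]; exact add_nonneg ha hb)
        (fun w M hM => (out_pos q hq M hM).le)
      have h3 : (q - ((G.neighborSet v).ncard : ℝ)) *
          (chr (G.comap (Subtype.val : {x : V // x ≠ v} → V))).eval q ≤ (chr G).eval q := by
        rw [hGD]
        simp only [Polynomial.eval_add, Polynomial.eval_mul, Polynomial.eval_sub,
          Polynomial.eval_X, Polynomial.eval_C]
        linarith
      have h4 : (G.neighborSet v).ncard ≤ m := by
        have hsub : G.neighborSet v ⊆ (Subtype.val : {x : V // x ≠ v} → V) '' Set.univ := by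
          intro y hy
          have hy' : G.Adj v y := hy
          exact ⟨⟨y, hy'.ne'⟩, trivial, rfl⟩
        refine (Set.ncard_le_ncard hsub (Set.toFinite _)).trans ?_
        refine (Set.ncard_image_le (Set.toFinite _)).trans ?_
        rw [Set.ncard_univ]
      have hv' : ((G.neighborSet v).ncard : ℝ) ≤ 2 := by exact_mod_cast hv
      have h4' : ((G.neighborSet v).ncard : ℝ) ≤ m := by exact_mod_cast h4
      refine le_trans ?_ h3
      have hNm : N = m + 1 := by omega
      rw [hNm]
      have hlow : ∀ k, 0 ≤ low q k := by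
        intro k
        rcases k with _ | _ | k
        · simp [low]
        · simp only [low]; linarith
        · simp only [low]
          have a1 : 0 ≤ q := by linarith
          have a2 : 0 ≤ q - 1 := by linarith
          have a3 : 0 ≤ q - 2 := by linarith
          positivity
      have h5 : (q - (G.neighborSet v).ncard) * low q m ≤ (q - (G.neighborSet v).ncard) *
          (chr (G.comap (Subtype.val : {x : V // x ≠ v} → V))).eval q :=
        mul_le_mul_of_nonneg_left h1 (by linarith)
      refine le_trans ?_ h5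
      rcases m with _ | _ | m
      · simp only [Nat.cast_zero] at h4'
        simp only [low, mul_one]
        linarith
      · simp only [zero_add, Nat.cast_one] at h4'
        simp only [low, pow_zero, mul_one]
        have : (q - 1) * q ≤ (q - (G.neighborSet v).ncard) * q :=
          mul_le_mul_of_nonneg_right (by linarith) (by linarith)
        linarith
      · have h6 := hlow (m + 2)
        have h7 : low q (m + 2 + 1) = (q - 2) * low q (m + 2) := by
          simp only [low]
          ring
        rw [h7]
        exact mul_le_mul_of_nonneg_right (by linarith) h6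

end Pool.Agent.Run7.h764.BLA
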