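import Pool.Agent.Run7.h764.BLA.Clq

/-!
The quotient `P(λ) / (λ (λ - 1) (λ - 2))` for glued triangulations.
-/

set_option autoImplicit false
set_option linter.unusedSectionVars false

namespace Pool.Agent.Run7.h764.BLA

open Polynomial Pool.Agent.H207R2.BL

theorem TP.path {n : ℕ} {T : SimpleGraph (Fin (n + 2))} (h : TP T) (i j : Fin (n + 2))
    (hij : i.val + 1 = j.val) : T.Adj i j := by
  have key : ∀ (m : ℕ) (a c : Fin (n + 2)), c.val - a.val = m → T.Adj a c → a ≤ i → j ≤ c →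
      T.Adj i j := by
    intro m
    induction m using Nat.strong_induction_on with
    | _ m ih =>
      intro a c hm hac hai hjc
      rw [Fin.le_def] at hai hjc
      by_cases hc : a.val + 1 < c.val
      · obtain ⟨b, hab, hbc, h1, h2⟩ := h.2.2 a c hac hc
        rw [Fin.lt_def] at hab hbc
        by_cases hb : b.val ≤ i.val
        · exact ih (c.val - b.val) (by omega) b c rfl h2 hb (by rw [Fin.le_def]; omega)
        · exact ih (b.val - a.val) (by omega) a b rfl h1 (by rw [Fin.le_def]; omega)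
            (by rw [Fin.le_def]; omega)
      · have e1 : a = i := Fin.ext (by omega)
        have e2 : c = j := Fin.ext (by omega)
        rw [← e1, ← e2]
        exact hac
  refine key _ 0 (Fin.last (n + 1)) rfl h.2.1 (Fin.zero_le _) (Fin.le_last _)

/-- a triangle -/
theorem TP.triangle {n : ℕ} {T : SimpleGraph (Fin (n + 2))} (h : TP T) (hn : 1 ≤ n) :
    ∃ x y z, T.Adj x y ∧ T.Adj y z ∧ T.Adj x z := by
  obtain ⟨b, _, _, h1, h2⟩ := h.2.2 0 (Fin.last (n + 1)) h.2.1 (by simp; omega)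
  exact ⟨0, b, Fin.last (n + 1), h1, h2, h.2.1⟩

theorem Tg_triangle {V : Type} {G : SimpleGraph V} (h : Tg V G) (hc : 3 ≤ Nat.card V) :
    ∃ x y z, G.Adj x y ∧ G.Adj y z ∧ G.Adj x z := by
  cases h with
  | union n S T V G e hS hT =>
    have h1 : Nat.card V = n + 2 := by
      rw [← Nat.card_congr e.toEquiv, Nat.card_eq_fintype_card, Fintype.card_fin]
    obtain ⟨x, y, z, hxy, hyz, hxz⟩ := hS.triangle (by omega)
    exact ⟨e x, e y, e z, e.map_rel_iff.2 (Or.inl hxy), e.map_rel_iff.2 (Or.inl hyz),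
      e.map_rel_iff.2 (Or.inl hxz)⟩
  | glue V G A B x y z hA hB hAB hcov hadj hE _ _ =>
    exact ⟨x, y, z, hadj.1, hadj.2.1, hadj.2.2⟩

/-- divisibility -/
theorem exists_quot {V : Type} [Finite V] {G : SimpleGraph V}
    (h : ∃ x y z, G.Adj x y ∧ G.Adj y z ∧ G.Adj x z) :
    ∃ R : ℝ[X], chr G = X * (X - 1) * (X - 2) * R := by
  obtain ⟨x, y, z, hxy, hyz, hxz⟩ := h
  have hzero : ∀ k : ℕ, k < 3 → (chr G).eval (k : ℝ) = 0 := by
    intro k hk
    rw [chr_spec G k, card_colorings]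
    have : IsEmpty {g : V → Fin k // Proper G g} := by
      refine ⟨fun g => ?_⟩
      have h1 := g.2 _ _ hxy
      have h2 := g.2 _ _ hyz
      have h3 := g.2 _ _ hxz
      have a1 := (g.1 x).2
      have a2 := (g.1 y).2
      have a3 := (g.1 z).2
      have b1 : (g.1 x).val ≠ (g.1 y).val := fun h => h1 (Fin.ext h)
      have b2 : (g.1 y).val ≠ (g.1 z).val := fun h => h2 (Fin.ext h)
      have b3 : (g.1 x).val ≠ (g.1 z).val := fun h => h3 (Fin.ext h)
      omega
    rw [Nat.card_of_isEmpty]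
    simp
  have h0 := hzero 0 (by norm_num)
  have h1 := hzero 1 (by norm_num)
  have h2 := hzero 2 (by norm_num)
  simp only [Nat.cast_zero, Nat.cast_one, Nat.cast_ofNat] at h0 h1 h2
  obtain ⟨p1, hp1⟩ := Polynomial.dvd_iff_isRoot.2 (show (chr G).IsRoot 0 from h0)
  rw [C_0, sub_zero] at hp1
  rw [hp1, Polynomial.eval_mul, Polynomial.eval_X, one_mul] at h1
  obtain ⟨p2, hp2⟩ := Polynomial.dvd_iff_isRoot.2 (show p1.IsRoot 1 from h1)
  rw [C_1] at hp2
  rw [hp1, hp2] at h2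
  simp only [Polynomial.eval_mul, Polynomial.eval_sub, Polynomial.eval_X,
    Polynomial.eval_one] at h2
  have h3 : p2.eval 2 = 0 := by
    have h4 : (2 : ℝ) * (2 - 1) = 2 := by norm_num
    rcases mul_eq_zero.1 h2 with h | h
    · norm_num at h
    · rcases mul_eq_zero.1 h with h | h
      · norm_num at h
      · exact h
  obtain ⟨p3, hp3⟩ := Polynomial.dvd_iff_isRoot.2 (show p2.IsRoot 2 from h3)
  have h5 : (C (2 : ℝ) : ℝ[X]) = 2 := map_ofNat C 2
  rw [h5] at hp3
  refine ⟨p3, ?_⟩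
  rw [hp1, hp2, hp3]
  ring

/-- the bound for the quotient -/
theorem quot_bound {V : Type} [Finite V] {G : SimpleGraph V} (h : Tg V G) (n : ℕ)
    (hn : Nat.card V = n + 3) (R : ℝ[X]) (hR : chr G = X * (X - 1) * (X - 2) * R) (l : ℝ)
    (hl : 4 ≤ l) : |R.eval l| ≤ (l - 2) ^ n := by
  have hb := (Tg_bound h l hl).2
  have e : n + 3 - 2 = n + 1 := by omega
  rw [hn, e, hR] at hb
  simp only [Polynomial.eval_mul, Polynomial.eval_sub, Polynomial.eval_X, Polynomial.eval_one,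
    Polynomial.eval_ofNat] at hb
  have l0 : 0 < l := by linarith
  have l1 : 0 < l - 1 := by linarith
  have l2 : 0 < l - 2 := by linarith
  have hc : 0 < l * (l - 1) * (l - 2) := by positivity
  rw [abs_mul, abs_of_pos hc] at hb
  refine le_of_mul_le_mul_left (hb.trans_eq ?_) hc
  rw [pow_succ]
  ring

/-- average of the quotients -/
theorem quot_avg (n : ℕ) (F : Finset (SimpleGraph (Fin (n + 3)))) (hF : ∀ T ∈ F, TP T)
    (R : SimpleGraph (Fin (n + 3)) → SimpleGraph (Fin (n + 3)) → ℝ[X])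
    (hR : ∀ S ∈ F, ∀ T ∈ F, chr (S ⊔ T) = X * (X - 1) * (X - 2) * R S T) (l : ℝ) (hl : 4 ≤ l) :
    (F.card : ℝ) ^ 2 * ((l - 2) ^ (2 * n + 1) / (l - 1) ^ (n + 1)) ≤
      ∑ S ∈ F, ∑ T ∈ F, (R S T).eval l := by
  have l0 : 0 < l := by linarith
  have l1 : 0 < l - 1 := by linarith
  have l2 : 0 < l - 2 := by linarith
  have hc : 0 < l * (l - 1) * (l - 2) := by positivity
  have h1 := avg (n := n + 1) F (fun T hT => (hF T hT).1) _ (path_nc (n + 1))
    (fun T hT => path_le T (hF T hT).path) l hl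
  rw [path_val] at h1
  have e1 : ∑ S ∈ F, ∑ T ∈ F, Pv l (S ⊔ T) =
      l * (l - 1) * (l - 2) * ∑ S ∈ F, ∑ T ∈ F, (R S T).eval l := by
    rw [Finset.mul_sum]
    refine Finset.sum_congr rfl (fun S hS => ?_)
    rw [Finset.mul_sum]
    refine Finset.sum_congr rfl (fun T hT => ?_)
    unfold Pv
    rw [hR S hS T hT]
    simp
  rw [e1] at h1
  have hpos : 0 < l * (l - 1) ^ (n + 1 + 1) * (l * (l - 1) * (l - 2)) := by positivity
  refine le_of_mul_le_mul_left ?_ hpos
  refine le_trans (le_of_eq ?_) (h1.trans_eq (by ring))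
  have h9 : (l - 1) ^ (n + 1) ≠ 0 := by positivity
  field_simp
  ring

/-- comparison with the lower bound -/
theorem quot_cmp (l : ℝ) (h4 : 4 ≤ l) (h5 : l ≤ 5) (n : ℕ) (hn : 3 ≤ n) :
    (l - 3) ^ n ≤ (l - 2) ^ (2 * n + 1) / (l - 1) ^ (n + 1) := by
  have l1 : 0 < l - 1 := by linarith
  have l2 : 0 < l - 2 := by linarith
  have h := strong_cmp l h4 h5 (n + 1) (by omega)
  have e : n + 1 - 1 = n := by omega
  rw [e, div_pow] at h
  refine le_of_mul_le_mul_left (h.trans_eq ?_) l2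
  rw [← pow_mul]
  have e2 : 2 * (n + 1) = 2 * n + 1 + 1 := by ring
  rw [e2, pow_succ (l - 2) (2 * n + 1)]
  ring

end Pool.Agent.Run7.h764.BLA
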